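import Pool.Agent.L0h17.TR.Star
import Pool.Agent.L0h17.DN.Main
import Pool.Agent.L0h17.KU.Sec

/-!
The lower bound for the Kodaira dimension of the members of a family.
-/

set_option autoImplicit false
set_option linter.overlappingInstances false
set_option linter.unusedSectionVars false

open FF IntermediateField Pool.Agent.W619.PQ Pool.Agent.W619.PL Pool.Agent.W619.TW
  Pool.Agent.W603.LV Pool.Agent.Y172
open Pool.Agent.W602.GT (Divisorial RegAt IsPluri DerReg exists_der)

namespace Pool.Agent.L0h17.TR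

section

variable {k K : Type} [Field k] [Field K] [Algebra k K] {n : ℕ}

/-- the Kodaira dimension is at least `h` -/
def KodR (k L : Type) [Field k] [Field L] [Algebra k L] (n h : ℕ) : Prop :=
  ∃ m : ℕ, 1 ≤ m ∧ ∃ Φ : Fin (h + 1) → (Fin n → Derivation k L L) → L,
    (∀ j, IsPluri m (Φ j) ∧ ∀ P : Place k L, Divisorial n P → RegAt P (Φ j)) ∧
    ∃ D, Φ 0 D ≠ 0 ∧ AlgebraicIndependent k fun j : Fin h => Φ j.succ D / Φ 0 D

/-- a pluricanonical form from differential forms of degree one -/
def ff (F : Fin n → Derivation k K K →ₗ[K] K) (w : ℕ) (μ : K)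
    (D : Fin n → Derivation k K K) : K :=
  (Matrix.of fun a b => F b (D a)).det ^ w * μ

theorem ff_pluri (F : Fin n → Derivation k K K →ₗ[K] K) (w : ℕ) (μ : K) :
    IsPluri w (ff F w μ) := by
  intro A D
  unfold ff
  have e1 : (Matrix.of fun a b => F b (∑ j, A a j • D j)) =
      A * Matrix.of fun a b => F b (D a) := by
    ext a b
    rw [Matrix.of_apply, Matrix.mul_apply, map_sum]
    exact Finset.sum_congr rfl fun i _ => by rw [map_smul, smul_eq_mul, Matrix.of_apply]
  rw [e1, Matrix.det_mul, mul_pow, mul_assoc]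

end

section

variable {R Λ K : Type} [Field R] [Field Λ] [Field K] [Algebra ℂ R] [Algebra ℂ Λ] [Algebra ℂ K]
  [Algebra Λ K] [IsScalarTower ℂ Λ K] [Algebra R K] [IsScalarTower ℂ R K]
  [Algebra.EssFiniteType ℂ R] [CharZero Λ] {c0 j q d : ℕ}

theorem core_reg {r : Fin c0 → Λ} (hr : IsTranscendenceBasis ℂ r)
    (htr : Algebra.trdeg Λ K = (j + d : ℕ)) (hjq : Algebra.trdeg ℂ R = (j + q : ℕ))
    {y' : Fin j → R} {y'' : Fin q → R}
    (hy : IsTranscendenceBasis ℂ (Fin.append y' y'' : Fin (j + q) → R))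
    {E : Fin (j + q) → Derivation ℂ R R}
    (hE : ∀ a b, E a ((Fin.append y' y'' : Fin (j + q) → R) b) = if a = b then 1 else 0)
    {p : ℕ} (hp : 1 ≤ p) {α : (Fin (j + q) → Derivation ℂ R R) → R} (hα : IsPluri p α)
    (hreg : ∀ P : Place ℂ R, Divisorial (j + q) P → RegAt P α)
    {T : Matrix (Fin j) (Fin q) K} {X : Matrix (Fin c0) (Fin q) K}
    (hTX : ∀ (H : Derivation ℂ K K) l, H (algebraMap R K (y'' l)) =
      ∑ i, H (algebraMap R K (y' i)) * T i l + ∑ i, H (algebraMap Λ K (r i)) * X i l)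
    (s : Fin q → Fin c0) {Q : Place Λ K} (hQ : Divisorial (j + d) Q)
    {β : Fin d → Derivation Λ K K →ₗ[K] K} (hβ : ∀ i D, DerReg Q D → Q.Reg (β i D))
    {G : Fin (j + d) → Derivation Λ K K} (hG : ∀ i, DerReg Q (G i)) :
    Ge Q 0 (ff (Fin.append (fun i => ev Λ (algebraMap R K (y' i))) β) p
      ((X.submatrix s id).det ^ p * algebraMap R K (α E)) G) := by
  classical
  unfold ff
  by_cases hdet : (Matrix.of fun a b =>
      (Fin.append (fun i => ev Λ (algebraMap R K (y' i))) β b : Derivation Λ K K →ₗ[K] K)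
        (G a)).det = 0
  · left
    rw [hdet, zero_pow (by omega), zero_mul]
  obtain ⟨t, ht0, ht⟩ := Q.surj
  have hpos : 1 ≤ j + d := by
    by_contra h0
    have h1 : j + d = 0 := by omega
    rw [h1] at htr
    have h2 : Algebra.IsAlgebraic Λ K := by
      rw [← trdeg_eq_zero_iff]
      simpa using htr
    exact Q.transcendental_of_ord_ne (by omega) (h2.isAlgebraic t)
  obtain ⟨m, hm⟩ : ∃ m, j + d = m + 1 := ⟨j + d - 1, by omega⟩
  obtain ⟨D₁, D₂, ε, h1, h2, h3⟩ := split Q (DerReg Q)
    (Pool.Agent.L0h17.KU.derReg_sub Q) _ _ G hG hdet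
  have hQ' : Divisorial (m + 1) Q := by rw [← hm]; exact hQ
  have h4 := star hr (by rw [htr, hm]) hjq hy hE hα hreg hTX s hQ' h1
  have h5 : Ge Q 0 (Matrix.of fun i l => β l (D₂ i) : Matrix (Fin d) (Fin d) K).det :=
    Pool.Agent.W619.PQ.ge_det Q _ fun a b => hβ b _ (h2 a)
  have h6 := (h5.pow p).mul h4
  rw [mul_zero, zero_add] at h6
  have h7 : (Matrix.of fun i l => β l (D₂ i) : Matrix (Fin d) (Fin d) K).det ^ p *
      (((Matrix.of fun a b => D₁ a (algebraMap R K (y' b))).det *
        (X.submatrix s id).det) ^ p * algebraMap R K (α E)) =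
      (((ε : ℤ) : K)) ^ p * ((Matrix.of fun a b =>
      (Fin.append (fun i => ev Λ (algebraMap R K (y' i))) β b : Derivation Λ K K →ₗ[K] K)
        (G a)).det ^ p * ((X.submatrix s id).det ^ p * algebraMap R K (α E))) := by
    rw [← mul_assoc (((ε : ℤ) : K) ^ p), ← mul_pow, ← h3]
    have h8 : (Matrix.of fun i l => (ev Λ (algebraMap R K (y' l)) : Derivation Λ K K →ₗ[K] K)
      (D₁ i) : Matrix (Fin j) (Fin j) K) = Matrix.of fun a b => D₁ a (algebraMap R K (y' b)) :=
      rfl
    rw [h8, mul_pow, mul_pow]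
    ring
  rw [h7] at h6
  have h8 : (((ε : ℤ) : K)) ^ p = 1 ∨ (((ε : ℤ) : K)) ^ p = -1 := by
    rcases Int.units_eq_one_or ε with h | h
    · left
      rw [h]; simp
    · rw [h]
      rcases Nat.even_or_odd p with hw | hw
      · left
        simp [hw.neg_one_pow]
      · right
        simp [hw.neg_one_pow]
  rcases h8 with h8 | h8
  · rwa [h8, one_mul] at h6
  · rw [h8] at h6
    have h9 := h6.neg
    simpa using h9

end

section

variable {R Λ Lg K : Type} [Field R] [Field Λ] [Field Lg] [Field K] [Algebra ℂ R] [Algebra ℂ Λ]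
  [Algebra ℂ K] [Algebra Λ K] [IsScalarTower ℂ Λ K] [Algebra R K] [IsScalarTower ℂ R K]
  [Algebra.EssFiniteType ℂ R] [CharZero Λ] [Algebra Λ Lg] [Algebra Lg K] [IsScalarTower Λ Lg K]
  [FiniteDimensional Lg K] [Algebra.EssFiniteType Λ K] {c0 j q d : ℕ}

theorem alg_push {n : ℕ} {g : Fin n → R} (hg : IsTranscendenceBasis ℂ g) (x : R) :
    IsAlgebraic (IntermediateField.adjoin Λ (Set.range fun l => algebraMap R K (g l)))
      (algebraMap R K x) := by
  have h1 : IsAlgebraic (IntermediateField.adjoin ℂ (Set.range g)) x :=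
    hg.isAlgebraic_field.isAlgebraic _
  have h2 : ∀ z : IntermediateField.adjoin ℂ (Set.range g), algebraMap R K (z : R) ∈
      IntermediateField.adjoin Λ (Set.range fun l => algebraMap R K (g l)) := by
    intro z
    have h3 : algebraMap R K (z : R) ∈ (IntermediateField.adjoin ℂ (Set.range g)).map
        (IsScalarTower.toAlgHom ℂ R K) := ⟨z, z.2, rfl⟩
    rw [IntermediateField.adjoin_map] at h3
    have h4 : IntermediateField.adjoin ℂ ((IsScalarTower.toAlgHom ℂ R K) '' Set.range g) ≤
        (IntermediateField.adjoin Λ (Set.range fun l => algebraMap R K (g l))).restrictScalars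
          ℂ := by
      rw [IntermediateField.adjoin_le_iff]
      rintro _ ⟨_, ⟨l, rfl⟩, rfl⟩
      exact IntermediateField.subset_adjoin Λ _ ⟨l, rfl⟩
    exact h4 h3
  let f : IntermediateField.adjoin ℂ (Set.range g) →+*
      IntermediateField.adjoin Λ (Set.range fun l => algebraMap R K (g l)) :=
    ((algebraMap R K).comp (algebraMap (IntermediateField.adjoin ℂ (Set.range g)) R)).codRestrict
      _ h2
  exact h1.ringHom_of_comp_eq f (algebraMap R K) f.injective rfl

/-- **The lower bound for the Kodaira dimension of the members of a family.** -/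
theorem core {r : Fin c0 → Λ} (hr : IsTranscendenceBasis ℂ r)
    (htr : Algebra.trdeg Λ Lg = (j + d : ℕ)) (hjq : Algebra.trdeg ℂ R = (j + q : ℕ))
    {y' : Fin j → R} {y'' : Fin q → R}
    (hy : IsTranscendenceBasis ℂ (Fin.append y' y'' : Fin (j + q) → R))
    (hind : AlgebraicIndependent Λ (fun i => algebraMap R K (y' i)))
    (hy'' : ∀ l, IsAlgebraic
      (IntermediateField.adjoin ℂ (Set.range (Fin.append (fun i => algebraMap R K (y' i))
        (fun i => algebraMap Λ K (r i)) : Fin (j + c0) → K))) (algebraMap R K (y'' l)))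
    {p : ℕ} (hp : 1 ≤ p) {η : (Fin (j + q) → Derivation ℂ R R) → R} (hη : IsPluri p η)
    (hη0 : ∃ D, η D ≠ 0) {g : Fin (j + q) → R} (hg : AlgebraicIndependent ℂ g)
    {ι : Type} [Finite ι] {c : ι → R}
    (hreg : ∀ P : Place ℂ R, Divisorial (j + q) P → ∀ (i : ι) (u : R),
      (u = 1 ∨ ∃ l, u = g l) → RegAt P (fun D => c i ^ (2 * p) * (u * η D)))
    (hspan : Submodule.span Lg (Set.range fun i => algebraMap R K (c i)) = ⊤)
    {β : Fin d → Derivation Λ K K →ₗ[K] K}
    (hβ : ∀ Q : Place Λ K, Divisorial (j + d) Q → ∀ i D, DerReg Q D → Q.Reg (β i D))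
    {G₀ : Fin (j + d) → Derivation Λ K K}
    (hG₀ : (Matrix.of fun a b =>
      (Fin.append (fun i => ev Λ (algebraMap R K (y' i))) β b : Derivation Λ K K →ₗ[K] K)
        (G₀ a)).det ≠ 0) : KodR Λ Lg (j + d) j := by
  classical
  have := Fintype.ofFinite ι
  have hessL : Algebra.EssFiniteType Λ Lg := Pool.Agent.TH466.QG.ess_below (K := K)
  have halg : Algebra.IsAlgebraic Lg K := inferInstance
  have htrK : Algebra.trdeg Λ K = (j + d : ℕ) := by
    rw [Pool.Agent.Y190.BV.trdeg_ext (k := Λ) (K := Lg) (L := K), htr]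
  -- the frame
  choose E hE using fun i : Fin (j + q) => exists_dual _ hy i
  have hE' : ∀ a b, E a ((Fin.append y' y'' : Fin (j + q) → R) b) = if a = b then 1 else 0 := by
    intro a b
    rw [hE]
    by_cases hab : a = b
    · rw [if_pos hab, if_pos hab.symm]
    · rw [if_neg hab, if_neg (Ne.symm hab)]
  -- the matrices
  have hzind : AlgebraicIndependent ℂ (Fin.append (fun i => algebraMap R K (y' i))
      (fun i => algebraMap Λ K (r i)) : Fin (j + c0) → K) := by
    have h1 := hr.1.sumElim_comp hind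
    have h2 := h1.comp (finSumFinEquiv (m := j) (n := c0)).symm (Equiv.injective _)
    rw [append_elim]
    exact h2
  obtain ⟨T, X, hTX⟩ := exists_TX (k := ℂ) (y'' := fun l => algebraMap R K (y'' l)) hzind hy''
  have hyK : AlgebraicIndependent ℂ (Fin.append (fun i => algebraMap R K (y' i))
      (fun l => algebraMap R K (y'' l)) : Fin (j + q) → K) := by
    have h1 := hy.1.map' (f := IsScalarTower.toAlgHom ℂ R K)
      (IsScalarTower.toAlgHom ℂ R K).injective
    have h2 : (Fin.append (fun i => algebraMap R K (y' i))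
      (fun l => algebraMap R K (y'' l)) : Fin (j + q) → K) =
      (IsScalarTower.toAlgHom ℂ R K) ∘ (Fin.append y' y'') := by
      funext i
      exact (append_map (algebraMap R K) y' y'' i).symm
    rw [h2]
    exact h1
  obtain ⟨s, hs⟩ := exists_sel hTX hyK
  -- the functions
  obtain ⟨b, hbS, hbi⟩ := Pool.Agent.L0h17.DN.exists_indep (k := Λ) (L := K) (K := K)
    (Set.range fun l => algebraMap R K (g l)) _ hind (fun i => by
      have hgb : IsTranscendenceBasis ℂ g := by
        apply hg.isTranscendenceBasis_of_lift_trdeg_le_of_finite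
        simpa using hjq.le
      exact alg_push hgb (y' i))
  obtain ⟨D, hD⟩ := hη0
  have hηE : η E ≠ 0 := Pool.Agent.L0h17.DN.ne_frame hη hD hy hE'
  -- the form
  choose l hl using hbS
  set F : Fin (j + d) → Derivation Λ K K →ₗ[K] K :=
    Fin.append (fun i => ev Λ (algebraMap R K (y' i))) β with hF
  set μ : K := (X.submatrix s id).det ^ p * algebraMap R K (η E) with hμ
  have hμ0 : μ ≠ 0 := mul_ne_zero (pow_ne_zero _ hs) ((map_ne_zero (algebraMap R K)).2 hηE)
  have hΩ : IsPluri p (ff F p μ) := ff_pluri F p μ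
  have hΩ0 : ff F p μ G₀ ≠ 0 := mul_ne_zero (pow_ne_zero _ hG₀) hμ0
  -- the regularity
  have hkey : ∀ (Q : Place Λ K), Divisorial (j + d) Q → ∀ (i : ι) (u : R),
      (u = 1 ∨ ∃ l, u = g l) → ∀ G : Fin (j + d) → Derivation Λ K K, (∀ a, DerReg Q (G a)) →
      Ge Q 0 (algebraMap R K (c i) ^ (2 * p) * (algebraMap R K u * ff F p μ G)) := by
    intro Q hQ i u hu G hG
    have h1 := core_reg hr htrK hjq hy hE' hp
      (α := fun D => c i ^ (2 * p) * (u * η D))
      (Pool.Agent.L0h17.DN.pluri_smul (Pool.Agent.L0h17.DN.pluri_smul hη _) _)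
      (fun P hP => hreg P hP i u hu) hTX s hQ (hβ Q hQ) hG
    have h2 : algebraMap R K (c i) ^ (2 * p) * (algebraMap R K u * ff F p μ G) =
        ff (Fin.append (fun i => ev Λ (algebraMap R K (y' i))) β) p
      ((X.submatrix s id).det ^ p * algebraMap R K (c i ^ (2 * p) * (u * η E))) G := by
      unfold ff
      rw [hμ, map_mul, map_mul, map_pow]
      ring
    rw [h2]
    exact h1
  -- the norm
  obtain ⟨Φ, h1, h2, D', h3, h4⟩ := Pool.Agent.L0h17.DN.main_aux (k := Λ) htr
    (⊤ : IntermediateField Λ K) (δ := fun _ => 0) (m := p) (h := j) hΩ hΩ0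
    (g := fun i => ⟨b i, trivial⟩)
    (by
      refine AlgebraicIndependent.of_comp (⊤ : IntermediateField Λ K).val ?_
      exact hbi)
    (fun i => ⟨algebraMap R K (c i), trivial⟩)
    (by
      intro x _
      have h5 : (Set.range fun i => (((⟨algebraMap R K (c i), trivial⟩ :
        (⊤ : IntermediateField Λ K))) : K)) = Set.range fun i => algebraMap R K (c i) := rfl
      rw [h5, hspan]
      trivial)
    (fun Q _ hh P e _ => by
      obtain ⟨t, ht0, ht⟩ := Q.surj
      have h5 := hh ⟨t, trivial⟩ (fun h0 => ht0 (congrArg Subtype.val h0))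
      change Q.ord t = 0 at h5
      omega)
    (fun Q hQ pp ε hpp P e hP i => by
      have hε : ε = 1 := by
        obtain ⟨t, ht0, ht⟩ := Q.surj
        have h5 := hpp.2 ⟨t, trivial⟩
        change Q.ord t = _ at h5
        rw [ht] at h5
        have h6 : (ε : ℤ) ∣ 1 := ⟨_, h5⟩
        exact Nat.dvd_one.1 (by exact_mod_cast h6)
      have h7 : (p : ℚ) * ((ε : ℚ) - 1) - p * e * 0 = ((0 : ℤ) : ℚ) := by
        rw [hε]
        push_cast
        ring
      rw [h7]
      refine ⟨fun G hG => ?_, fun a G hG => ?_⟩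
      · have h8 := hkey Q hQ i 1 (Or.inl rfl) G hG
        rw [map_one, one_mul] at h8
        rcases h8 with h8 | h8
        · exact Or.inl h8
        · exact Or.inr (Int.cast_le.2 h8)
      · have h8 := hkey Q hQ i _ (Or.inr ⟨l a, rfl⟩) G hG
        have h9 : algebraMap R K (g (l a)) = b a := hl a
        rw [h9] at h8
        rcases h8 with h8 | h8
        · exact Or.inl h8
        · exact Or.inr (Int.cast_le.2 h8))
  refine ⟨p * Module.finrank Lg K, Nat.mul_pos hp Module.finrank_pos, Φ, fun a => ⟨h1 a,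
    fun P hP G hG => ?_⟩, D', h3, h4⟩
  rcases h2 P hP a G hG with h5 | h5
  · exact Or.inl h5
  · right
    have h6 : (0 : ℚ) ≤ P.ord (Φ a G) := by simpa using h5
    exact_mod_cast h6

end

end Pool.Agent.L0h17.TR
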