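import Pool.Agent.L0h17.TR.Geo
import Pool.Agent.W52.PG.RULED2

/-!
Families of varieties which are contracted by the multivalued fibration.
-/

set_option autoImplicit false
set_option linter.overlappingInstances false
set_option linter.unusedSectionVars false

open FF IntermediateField Pool.Agent.W619.PQ Pool.Agent.W619.PL Pool.Agent.W619.TW
  Pool.Agent.W603.LV Pool.Agent.Y172 Cardinal
open Pool.Agent.W602.GT (Divisorial RegAt IsPluri DerReg exists_der)

namespace Pool.Agent.L0h17.TR

section

variable {k L : Type} [Field k] [Field L] [Algebra k L] {n : ℕ}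

theorem kod_mono {h h' : ℕ} (hh : h' ≤ h) (H : KodR k L n h) : KodR k L n h' := by
  obtain ⟨m, hm, Φ, h1, D, hD, hind⟩ := H
  refine ⟨m, hm, fun i => Φ (Fin.castLE (by omega) i), fun j => h1 _, D, ?_, ?_⟩
  · change Φ (Fin.castLE (by omega : h' + 1 ≤ h + 1) 0) D ≠ 0
    rw [Fin.castLE_zero]
    exact hD
  · have h2 := hind.comp (Fin.castLE hh) (Fin.castLE_injective hh)
    have h3 : (fun j : Fin h' => Φ (Fin.castLE (by omega : h' + 1 ≤ h + 1) j.succ) D /
        Φ (Fin.castLE (by omega : h' + 1 ≤ h + 1) 0) D) =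
        (fun j : Fin h => Φ j.succ D / Φ 0 D) ∘ Fin.castLE hh := by
      funext j
      rw [Fin.castLE_zero]
      rfl
    rw [h3]
    exact h2

theorem no_rat [CharZero k] [IsAlgClosed k] (hn : Algebra.trdeg k L = n)
    (M : IntermediateField k L) (t : L) (ht : Transcendental M t)
    (htop : IntermediateField.adjoin M {t} = ⊤) (h : ℕ) : ¬ KodR k L n h := by
  rintro ⟨m, hm, Φ, h1, D, hD, -⟩
  obtain ⟨c, hc⟩ := Pool.Agent.W52.PG.RULED2.main k L M t n hn ht htop {1}
  have h2 := hc m 0 (Φ 0) ⟨(h1 0).1, fun v hv _ G hG => ?_, fun _ _ h => h.elim⟩ ⟨D, hD⟩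
  · omega
  · rcases (h1 0).2 v hv G hG with h3 | h3
    · exact Or.inl h3
    · exact Or.inr ⟨1, Finset.mem_singleton_self 1, one_ne_zero, by simpa using h3⟩

end

section

variable {Ω R : Type} [Field Ω] [Algebra ℂ Ω] [Field R] [Algebra ℂ R]
  {L : IntermediateField ℂ Ω} {φ : R →ₐ[ℂ] Ω} {ι : Type} {c : ι → R} {a : ℕ}

/-- the dimension of the image is finite -/
theorem exists_j (hD : Dm L φ c a) (Λ : IntermediateField ℂ Ω) (G : IntermediateField Λ Ω)
    (hLG : ∀ x ∈ L, x ∈ G) {e : ℕ} (he : Algebra.trdeg Λ G = e) :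
    ∃ j : ℕ, j ≤ e ∧ Algebra.trdeg Λ (IntermediateField.adjoin Λ (Set.range φ)) = j := by
  let C : IntermediateField G Ω := algebraicClosure G Ω
  have hC : Algebra.IsAlgebraic G C := algebraicClosure.isAlgebraic G Ω
  have hst : IsScalarTower Λ G C := IsScalarTower.of_algebraMap_eq fun z => rfl
  have htr : Algebra.trdeg Λ C = e := by
    rw [Pool.Agent.Y190.BV.trdeg_ext (k := Λ) (K := G) (L := C), he]
  have hle : IntermediateField.adjoin Λ (Set.range φ) ≤ C.restrictScalars Λ := by
    rw [IntermediateField.adjoin_le_iff]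
    rintro _ ⟨x, rfl⟩
    exact mem_algebraicClosure_iff.2 (alg_up Λ G hLG (hD.alg x))
  have h1 : Algebra.trdeg Λ (IntermediateField.adjoin Λ (Set.range φ)) ≤ e := by
    rw [← htr]
    exact trdeg_le_of_injective (IntermediateField.inclusion hle)
      (IntermediateField.inclusion hle).injective
  have h2 : Algebra.trdeg Λ (IntermediateField.adjoin Λ (Set.range φ)) < ℵ₀ :=
    lt_of_le_of_lt h1 Cardinal.natCast_lt_aleph0
  obtain ⟨j, hj⟩ := Cardinal.lt_aleph0.1 h2
  refine ⟨j, ?_, hj⟩
  rw [hj] at h1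
  exact_mod_cast h1

theorem alg_zero (Λ : IntermediateField ℂ Ω)
    (hj : Algebra.trdeg Λ (IntermediateField.adjoin Λ (Set.range φ)) = (0 : ℕ)) (x : R) :
    IsAlgebraic Λ (φ x) := by
  have h1 : Algebra.IsAlgebraic Λ (IntermediateField.adjoin Λ (Set.range φ)) := by
    rw [← trdeg_eq_zero_iff]
    simpa using hj
  have h2 := h1.isAlgebraic
    (⟨φ x, IntermediateField.subset_adjoin _ _ ⟨x, rfl⟩⟩ :
      IntermediateField.adjoin Λ (Set.range φ))
  exact h2.algebraMap (A := Ω)

/-- varieties of maximal Albanese dimension and of Kodaira dimension at most zero are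
contracted -/
theorem con_alb [Algebra.EssFiniteType ℂ R] [Finite ι] (hD : Dm L φ c a)
    (Λ : IntermediateField ℂ Ω) (G : IntermediateField Λ Ω) [Algebra.EssFiniteType Λ G]
    {c0 e : ℕ} (hΛ : Algebra.trdeg ℂ Λ = c0) (hLG : ∀ x ∈ L, x ∈ G)
    (he : Algebra.trdeg Λ G = e) (h1 : MaxAlb Λ G e) (h2 : ¬ KodR Λ G e 1) (x : R) :
    IsAlgebraic Λ (φ x) := by
  obtain ⟨j, -, hj⟩ := exists_j hD Λ G hLG he
  have h3 := core3 hD Λ G hΛ hLG he hj (Or.inr h1)
  have h4 : j = 0 := by
    by_contra h5
    exact h2 (kod_mono (by omega) h3)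
  subst h4
  exact alg_zero Λ hj x

/-- an element which is algebraic over the fields generated by all coordinates but one -/
theorem alg_meet (Λ : IntermediateField ℂ Ω) {n : ℕ} {t : Fin n → Ω}
    (ht : AlgebraicIndependent Λ t) {z : Ω}
    (hz : IsAlgebraic (IntermediateField.adjoin Λ (Set.range t)) z)
    (hzi : ∀ i, IsAlgebraic (IntermediateField.adjoin Λ (t '' {i}ᶜ)) z) : IsAlgebraic Λ z := by
  classical
  by_contra htr
  have htr' : Transcendental Λ z := htr
  have hind : AlgebraicIndependent Λ (fun _ : Fin 1 => z) := by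
    rw [algebraicIndependent_unique_type_iff]
    exact htr'
  obtain ⟨D, hD⟩ := der_ind hind (fun _ => 1)
  choose H hH using fun i : Fin n => der_ind ht (fun l => if l = i then 1 else 0)
  have h1 : (D - ∑ i, D (t i) • H i) z = 0 := by
    refine kill (S := Set.range t) ?_ hz
    rintro _ ⟨l, rfl⟩
    rw [Derivation.sub_apply, dsum]
    simp only [hH, mul_ite, mul_one, mul_zero, Finset.sum_ite_eq, Finset.mem_univ, if_true,
      sub_self]
  have h2 : ∀ i, H i z = 0 := by
    intro i
    refine kill (S := t '' {i}ᶜ) ?_ (hzi i)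
    rintro _ ⟨l, hl, rfl⟩
    rw [hH, if_neg (show ¬ l = i from fun h => hl h)]
  rw [Derivation.sub_apply, dsum] at h1
  simp only [h2, mul_zero, Finset.sum_const_zero, sub_zero] at h1
  have h3 := hD 0
  rw [h1] at h3
  exact zero_ne_one h3

theorem adj_top {k K : Type} [Field k] [Field K] [Algebra k K] (t : K)
    (h : t ∈ IntermediateField.adjoin k {t}) :
    IntermediateField.adjoin k {(⟨t, h⟩ : IntermediateField.adjoin k {t})} = ⊤ := by
  rw [eq_top_iff]
  have h1 : (IntermediateField.adjoin k {(⟨t, h⟩ : IntermediateField.adjoin k {t})}).map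
      (IntermediateField.adjoin k {t}).val = IntermediateField.adjoin k {t} := by
    rw [IntermediateField.adjoin_map, Set.image_singleton]
    rfl
  intro x _
  have h2 : (x : K) ∈ (IntermediateField.adjoin k
      {(⟨t, h⟩ : IntermediateField.adjoin k {t})}).map (IntermediateField.adjoin k {t}).val := by
    rw [h1]
    exact x.2
  obtain ⟨y, hy, hyx⟩ := h2
  have h4 : y = x := Subtype.ext hyx
  exact h4 ▸ hy

theorem top_bot {k K : Type} [Field k] [Field K] [Algebra k K] {t : K}
    (h : IntermediateField.adjoin k {t} = ⊤) :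
    IntermediateField.adjoin (⊥ : IntermediateField k K) {t} = ⊤ := by
  rw [eq_top_iff]
  intro x _
  have h1 : x ∈ IntermediateField.adjoin k {t} := by rw [h]; trivial
  have h2 : IntermediateField.adjoin k {t} ≤
      (IntermediateField.adjoin (⊥ : IntermediateField k K) {t}).restrictScalars k := by
    rw [IntermediateField.adjoin_le_iff]
    exact IntermediateField.subset_adjoin _ _
  exact h2 h1

theorem trdeg_one {k K : Type} [Field k] [Field K] [Algebra k K] {t : K}
    (ht : Transcendental k t) : Algebra.trdeg k (IntermediateField.adjoin k {t}) = (1 : ℕ) := by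
  have h0 : t ∈ IntermediateField.adjoin k {t} := IntermediateField.subset_adjoin _ _ rfl
  have h1 : Transcendental k (⟨t, h0⟩ : IntermediateField.adjoin k {t}) := fun h =>
    ht (h.algebraMap (A := K))
  have h6 : Algebra.IsAlgebraic
      (Algebra.adjoin k {(⟨t, h0⟩ : IntermediateField.adjoin k {t})})
      (IntermediateField.adjoin k {t}) := by
    rw [← IntermediateField.isAlgebraic_adjoin_iff_top, adj_top]
    exact ⟨fun x => isAlgebraic_algebraMap
      (⟨x, trivial⟩ : (⊤ : IntermediateField k (IntermediateField.adjoin k {t})))⟩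
  apply le_antisymm
  · have h7 := Algebra.IsAlgebraic.trdeg_le_cardinalMk (R := k)
      (s := {(⟨t, h0⟩ : IntermediateField.adjoin k {t})})
    simpa using h7
  · have h8 : AlgebraicIndependent k
        (fun _ : Fin 1 => (⟨t, h0⟩ : IntermediateField.adjoin k {t})) := by
      rw [algebraicIndependent_unique_type_iff]
      exact h1
    have h9 := h8.lift_cardinalMk_le_trdeg
    simpa using h9

/-- unirational varieties are contracted -/
theorem con_rat [IsAlgClosed Ω] [Algebra.EssFiniteType ℂ R] [Finite ι] (hD : Dm L φ c a)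
    (Λ : IntermediateField ℂ Ω) {c0 : ℕ} (hΛ : Algebra.trdeg ℂ Λ = c0) {n : ℕ} {t : Fin n → Ω}
    (ht : AlgebraicIndependent Λ t)
    (hL : ∀ x ∈ L, x ∈ IntermediateField.adjoin Λ (Set.range t)) (x : R) :
    IsAlgebraic Λ (φ x) := by
  classical
  have hx : IsAlgebraic (IntermediateField.adjoin Λ (Set.range t)) (φ x) :=
    alg_up Λ _ hL (hD.alg x)
  refine alg_meet Λ ht hx fun i => ?_
  -- the field generated by the other coordinates
  let M : IntermediateField Λ Ω := IntermediateField.adjoin Λ (t '' {i}ᶜ)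
  let C : IntermediateField M Ω := algebraicClosure M Ω
  let Λ' : IntermediateField ℂ Ω := (C.restrictScalars Λ).restrictScalars ℂ
  have hclosed' : IsAlgClosed C := (algebraicClosure.isAlgClosure M Ω).isAlgClosed
  have hclosed : IsAlgClosed Λ' := inferInstanceAs (IsAlgClosed C)
  have hC : Algebra.IsAlgebraic M C := algebraicClosure.isAlgebraic M Ω
  have hMC : ∀ z ∈ M, z ∈ Λ' := fun z hz =>
    mem_algebraicClosure_iff.2 (isAlgebraic_algebraMap (⟨z, hz⟩ : M))
  have hΛM : ∀ z ∈ Λ, z ∈ Λ' := fun z hz => hMC z (M.algebraMap_mem ⟨z, hz⟩)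
  -- the transcendence degree of the field
  have hΛ' : ∃ c1 : ℕ, Algebra.trdeg ℂ Λ' = c1 := by
    have h1 : Algebra.trdeg Λ M < ℵ₀ := by
      have hess : Algebra.EssFiniteType Λ M := by
        rw [IntermediateField.essFiniteType_iff]
        exact IntermediateField.fg_adjoin_of_finite ((Set.finite_range t).subset
          (Set.image_subset_range _ _))
      exact trdeg_lt_aleph0 Λ M
    have hst : IsScalarTower Λ M C := IsScalarTower.of_algebraMap_eq fun z => rfl
    have h2 : Algebra.trdeg Λ C < ℵ₀ := by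
      rw [Pool.Agent.Y190.BV.trdeg_ext (k := Λ) (K := M) (L := C)]
      exact h1
    letI : Algebra ℂ C := ((algebraMap Λ C).comp (algebraMap ℂ Λ)).toAlgebra
    have hst2 : IsScalarTower ℂ Λ C := IsScalarTower.of_algebraMap_eq fun z => rfl
    have h3 : Algebra.trdeg ℂ C < ℵ₀ := by
      rw [← _root_.trdeg_add_eq ℂ Λ (A := C), hΛ]
      exact Cardinal.add_lt_aleph0 Cardinal.natCast_lt_aleph0 h2
    obtain ⟨c1, hc1⟩ := Cardinal.lt_aleph0.1 h3
    exact ⟨c1, hc1⟩
  obtain ⟨c1, hc1⟩ := hΛ'
  -- the rational curve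
  let G : IntermediateField Λ' Ω := IntermediateField.adjoin Λ' {t i}
  have htG : t i ∈ G := IntermediateField.subset_adjoin _ _ rfl
  have hess : Algebra.EssFiniteType Λ' G := by
    rw [IntermediateField.essFiniteType_iff]
    exact IntermediateField.fg_adjoin_of_finite (Set.finite_singleton _)
  have hLG : ∀ x ∈ L, x ∈ G := by
    intro x hx
    have h1 : (IntermediateField.adjoin Λ (Set.range t)).toSubfield ≤ G.toSubfield := by
      rw [IntermediateField.adjoin_toSubfield, Subfield.closure_le]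
      rintro _ (⟨z, rfl⟩ | ⟨l, rfl⟩)
      · exact G.algebraMap_mem ⟨(z : Ω), hΛM _ z.2⟩
      · by_cases hl : l = i
        · rw [hl]
          exact htG
        · exact G.algebraMap_mem ⟨t l, hMC _ (IntermediateField.subset_adjoin _ _ ⟨l, hl, rfl⟩)⟩
    exact h1 (hL x hx)
  have htrM : Transcendental M (t i) := by
    intro h1
    obtain ⟨H, hH⟩ := der_ind ht (fun l => if l = i then 1 else 0)
    have h2 : H (t i) = 0 := by
      refine kill (S := t '' {i}ᶜ) ?_ h1
      rintro _ ⟨l, hl, rfl⟩
      rw [hH, if_neg (show ¬ l = i from fun h => hl h)]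
    rw [hH, if_pos rfl] at h2
    exact one_ne_zero h2
  have htr : Transcendental Λ' (t i) := by
    intro h1
    have h2 : IsAlgebraic C (t i) := h1
    exact htrM (h2.restrictScalars M)
  have he : Algebra.trdeg Λ' G = (1 : ℕ) := trdeg_one htr
  obtain ⟨j, hj1, hj⟩ := exists_j hD Λ' G hLG he
  have hj0 : j = 0 := by
    by_contra h5
    have hj' : j = 1 := by omega
    have h3 := core3 hD Λ' G hc1 hLG he hj (Or.inl hj')
    refine no_rat he (⊥ : IntermediateField Λ' G) ⟨t i, htG⟩ ?_ ?_ _ h3
    · intro h7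
      have h8 : IsAlgebraic Λ' (⟨t i, htG⟩ : G) := h7.restrictScalars Λ'
      exact htr (h8.algebraMap (A := Ω))
    · exact top_bot (adj_top _ _)
  subst hj0
  have h6 : IsAlgebraic C (φ x) := alg_zero Λ' hj x
  exact h6.restrictScalars M

end

end Pool.Agent.L0h17.TR
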