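import Pool.Agent.L0h17.KU.Fin
import Pool.Agent.L0h17.DN.Main

/-!
Comparison of the Iitaka dimensions and of the numerical dimensions of `(V, D)` and `(X, Δ)`.
-/

set_option autoImplicit false
set_option linter.overlappingInstances false
set_option linter.unusedSectionVars false

open FF IntermediateField Pool.Agent.W619.PQ Pool.Agent.W619.PL Pool.Agent.W619.TW
  Pool.Agent.W603.LV MvPolynomial Pool.Agent.Y172
open Pool.Agent.W602.GT (Divisorial RegAt IsPluri DerReg)
open Pool.Agent.L0h17.DN (GeQ OrdAt PairNumNeg geQ_int ne_frame ratio_eq pb pb_pluri pb_order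
  pb_lft lft lft_apply pluri_ppow pluri_smul main_aux)
open Pool.Agent.L0h17.KU (Tw val_indep part1)

namespace Pool.Agent.L0h17.TR

section

/-- the sections of `M (K_X + Δ)` have `h` algebraically independent ratios -/
def Iit (k L : Type) [Field k] [Field L] [Algebra k L] (n : ℕ) (δ : Place k L → ℚ) (M h : ℕ) :
    Prop :=
  ∃ Φ : Fin (h + 1) → (Fin n → Derivation k L L) → L,
    (∀ j, IsPluri M (Φ j) ∧ ∀ P : Place k L, Divisorial n P → OrdAt P (-(M * δ P)) (Φ j)) ∧
    ∃ D, Φ 0 D ≠ 0 ∧ AlgebraicIndependent k fun j : Fin h => Φ j.succ D / Φ 0 D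

variable {k L K : Type} [Field k] [CharZero k] [Field L] [Field K] [Algebra k L] [Algebra k K]
  [Algebra L K] [IsScalarTower k L K] [FiniteDimensional L K] [Algebra.EssFiniteType k L]
  [Algebra.EssFiniteType k K] {n : ℕ} {ι : Type}

/-- pull-back of sections -/
theorem iit_up (hn : Algebra.trdeg k L = n) {δ : Place k L → ℚ} {δ' : Place k K → ℚ}
    (hpull : ∀ (Q : Place k K) (P : Place k L) (e : ℕ), Divisorial n Q → Over Q P e →
      1 - δ' Q ≤ e * (1 - δ P)) {M h : ℕ} (H : Iit k L n δ M h) : Iit k K n δ' M h := by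
  classical
  obtain ⟨y, E, hy, hE⟩ := exists_crd (k := k) hn
  obtain ⟨Φ, h1, D, hD, hind⟩ := H
  refine ⟨fun j => pb (K := K) M y E (Φ j), fun j => ⟨pb_pluri M y E (Φ j), fun Q hQ => ?_⟩,
    fun i => lft (K := K) hn (E i), ?_, ?_⟩
  · obtain ⟨P, e, hP⟩ := exists_below (k := k) (K := L) (L := K) Q
    have hPd : Divisorial n P := Pool.Agent.W619.Y.pDIVI.{0, 0} k L K n P Q e hP hQ
    have h2 := pb_order (K := K) hy hE hn (h1 j).1 hPd hP ((h1 j).2 P hPd)
    intro G hG
    refine (h2 G hG).mono ?_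
    have h4 := hpull Q P e hQ hP
    have h5 : -δ' Q ≤ ((e : ℚ) - 1) - e * δ P := by linarith
    have h6 : (0 : ℚ) ≤ M := by positivity
    have h7 := mul_le_mul_of_nonneg_left h5 h6
    linarith
  · change pb (K := K) M y E (Φ 0) (fun i => lft (K := K) hn (E i)) ≠ 0
    rw [pb_lft hE hn]
    exact (map_ne_zero (algebraMap L K)).2 (ne_frame (h1 0).1 hD hy hE)
  · have h2 : (fun j : Fin h => pb (K := K) M y E (Φ j.succ) (fun i => lft (K := K) hn (E i)) /
        pb (K := K) M y E (Φ 0) (fun i => lft (K := K) hn (E i))) =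
        fun j : Fin h => algebraMap L K (Φ j.succ D / Φ 0 D) := by
      funext j
      rw [pb_lft hE hn, pb_lft hE hn, ← map_div₀]
      congr 1
      have h3 := ratio_eq hn (h1 0).1 (h1 j.succ).1 hD E
      rw [h3, mul_div_assoc, div_self (ne_frame (h1 0).1 hD hy hE), mul_one]
    rw [h2]
    exact hind.map' (f := IsScalarTower.toAlgHom k L K)
      (IsScalarTower.toAlgHom k L K).injective

section

variable {δ : Place k L → ℚ} {δ' : Place k K → ℚ}
  (hle : ∀ (Q : Place k K) (P : Place k L) (e : ℕ), Divisorial n Q → Over Q P e →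
    δ' Q ≤ e * δ P)
  {a : ι → K} {M₀ : ℕ} {ω₀ : (Fin n → Derivation k K K) → K} (hω₀ : IsPluri M₀ ω₀)
  (hne : ∃ D, ω₀ D ≠ 0)
  (hord : ∀ Q : Place k K, Divisorial n Q → ∀ i,
    OrdAt Q (-(M₀ * δ' Q)) (fun D => a i ^ (2 * M₀ + 1) * ω₀ D))

include hle hord

theorem ord_key {m : ℕ} {σ : (Fin n → Derivation k K K) → K} {Q : Place k K}
    (hQ : Divisorial n Q) {P : Place k L} {e : ℕ} (hP : Over Q P e) (i : ι)
    {G : Fin n → Derivation k K K} (hG : ∀ l, DerReg Q (G l)) {b : ℚ}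
    (hσ : GeQ Q (b - m * δ' Q) (σ G)) :
    GeQ Q (b - (m + 2 * m * M₀ : ℕ) * e * δ P)
      (a i ^ (2 * (m + 2 * m * M₀)) * (σ G * ω₀ G ^ (2 * m))) := by
  have h1 := (hord Q hQ i G hG).pow (2 * m)
  have h2 := hσ.mul h1
  have h3 : σ G * (a i ^ (2 * M₀ + 1) * ω₀ G) ^ (2 * m) =
      a i ^ (2 * (m + 2 * m * M₀)) * (σ G * ω₀ G ^ (2 * m)) := by
    rw [mul_pow, ← pow_mul]
    have h4 : (2 * M₀ + 1) * (2 * m) = 2 * (m + 2 * m * M₀) := by ring
    rw [h4]
    ring
  rw [← h3]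
  refine h2.mono ?_
  have h5 := hle Q P e hQ hP
  have h6 : (0 : ℚ) ≤ ((m + 2 * m * M₀ : ℕ) : ℚ) := by positivity
  have h7 := mul_le_mul_of_nonneg_left h5 h6
  push_cast at h7 ⊢
  nlinarith

include hω₀ hne

/-- **The Iitaka dimension.** -/
theorem iit_down (hn : Algebra.trdeg k L = n) [Finite ι]
    (ha : Submodule.span L (Set.range a) = ⊤) {m h : ℕ} (H : Iit k K n δ' m h) :
    Iit k L n δ ((m + 2 * m * M₀) * Module.finrank L K) h := by
  classical
  have := Fintype.ofFinite ι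
  have hnK : Algebra.trdeg k K = n := by
    have halg : Algebra.IsAlgebraic L K := inferInstance
    rw [Pool.Agent.Y190.BV.trdeg_ext (k := k) (K := L) (L := K), hn]
  obtain ⟨y, E, hy, hE⟩ := exists_crd (k := k) hnK
  obtain ⟨Φ, h1, D, hD, hind⟩ := H
  obtain ⟨D₀, hD₀⟩ := hne
  set Ω : (Fin n → Derivation k K K) → K := fun G => Φ 0 G * ω₀ G ^ (2 * m) with hΩd
  have hΩ : IsPluri (m + 2 * m * M₀) Ω := pluri_mul (h1 0).1 (pluri_ppow hω₀ (2 * m))
  have hΩ0 : Ω E ≠ 0 := mul_ne_zero (ne_frame (h1 0).1 hD hy hE)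
    (pow_ne_zero _ (ne_frame hω₀ hD₀ hy hE))
  obtain ⟨Ψ, h2, h3, D', h4, h5⟩ := main_aux (k := k) hn (⊤ : IntermediateField k K) (δ := δ)
    (m := m + 2 * m * M₀) (h := h) hΩ hΩ0
    (g := fun j => ⟨Φ j.succ D / Φ 0 D, trivial⟩)
    (by
      refine AlgebraicIndependent.of_comp (⊤ : IntermediateField k K).val ?_
      exact hind)
    (fun i => ⟨a i, trivial⟩)
    (by
      intro x _
      have h5 : (Set.range fun i => (((⟨a i, trivial⟩ : (⊤ : IntermediateField k K))) : K)) =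
          Set.range a := rfl
      rw [h5, ha]
      trivial)
    (fun Q _ hh P e _ => by
      obtain ⟨t, ht0, ht⟩ := Q.surj
      have h5 := hh ⟨t, trivial⟩ (fun h0 => ht0 (congrArg Subtype.val h0))
      change Q.ord t = 0 at h5
      omega)
    (fun Q hQ p ε hp P e hP i => by
      have hε : ε = 1 := by
        obtain ⟨t, ht0, ht⟩ := Q.surj
        have h5 := hp.2 ⟨t, trivial⟩
        change Q.ord t = _ at h5
        rw [ht] at h5
        have h6 : (ε : ℤ) ∣ 1 := ⟨_, h5⟩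
        exact Nat.dvd_one.1 (by exact_mod_cast h6)
      have h7 : ((m + 2 * m * M₀ : ℕ) : ℚ) * ((ε : ℚ) - 1) -
          ((m + 2 * m * M₀ : ℕ) : ℚ) * e * δ P = 0 - (m + 2 * m * M₀ : ℕ) * e * δ P := by
        rw [hε]
        push_cast
        ring
      rw [h7]
      refine ⟨fun G hG => ?_, fun j G hG => ?_⟩
      · refine ord_key hle hord hQ hP i hG (b := 0) (σ := Φ 0) ?_
        rw [zero_sub]
        exact (h1 0).2 Q hQ G hG
      · have h8 := ord_key hle hord hQ hP i hG (b := 0) (m := m) (σ := Φ j.succ) (by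
          rw [zero_sub]
          exact (h1 j.succ).2 Q hQ G hG)
        have h9 : Φ j.succ G = Φ j.succ D / Φ 0 D * Φ 0 G :=
          ratio_eq hnK (h1 0).1 (h1 j.succ).1 hD G
        rw [h9] at h8
        have h10 : a i ^ (2 * (m + 2 * m * M₀)) *
            (Φ j.succ D / Φ 0 D * Φ 0 G * ω₀ G ^ (2 * m)) =
            a i ^ (2 * (m + 2 * m * M₀)) * (Φ j.succ D / Φ 0 D * Ω G) := by
          rw [hΩd]
          ring
        rw [h10] at h8
        exact h8)
  refine ⟨Ψ, fun j => ⟨h2 j, fun P hP => h3 P hP j⟩, D', h4, h5⟩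

/-- **The numerical dimension.** -/
theorem num_up (hn : Algebra.trdeg k L = n) [Finite ι]
    (ha : Submodule.span L (Set.range a) = ⊤) {h : ℕ} (H : PairNumLe k L n δ h) :
    PairNumLe k K n δ' h := by
  classical
  have hnK : Algebra.trdeg k K = n := by
    have halg : Algebra.IsAlgebraic L K := inferInstance
    rw [Pool.Agent.Y190.BV.trdeg_ext (k := k) (K := L) (L := K), hn]
  obtain ⟨y, E, hy, hE⟩ := exists_crd (k := k) hnK
  obtain ⟨D₀, hD₀⟩ := hne
  have hω₀E := ne_frame hω₀ hD₀ hy hE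
  intro S
  obtain ⟨C, hC⟩ := part1 hn δ ha H S
  refine ⟨C * (1 + 2 * M₀) ^ h, fun m N hm hI => ?_⟩
  obtain ⟨ω, hli, hω⟩ := hI
  have h1 := hC (m + 2 * m * M₀) N (by omega) ⟨fun l G => ω l G * ω₀ G ^ (2 * m), ?_,
    fun l => ⟨pluri_mul (hω l).1 (pluri_ppow hω₀ (2 * m)), fun Q P e hQ hP i G hG => ?_⟩⟩
  · calc N ≤ C * (m + 2 * m * M₀) ^ h := h1
      _ = C * (1 + 2 * M₀) ^ h * m ^ h := by
          rw [show m + 2 * m * M₀ = (1 + 2 * M₀) * m by ring, mul_pow]
          ring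
  · have h2 := val_indep hy hE hli fun l => (hω l).1
    rw [Fintype.linearIndependent_iff] at h2 ⊢
    intro r hr
    refine h2 r ?_
    have h3 := congrFun hr E
    rw [Finset.sum_apply, Pi.zero_apply] at h3
    have h4 : (∑ l, r l • ω l E) * ω₀ E ^ (2 * m) = 0 := by
      rw [Finset.sum_mul, ← h3]
      refine Finset.sum_congr rfl fun l _ => ?_
      rw [Pi.smul_apply, smul_mul_assoc]
    exact (mul_eq_zero.1 h4).resolve_right (pow_ne_zero _ hω₀E)
  · rcases (hω l).2 Q hQ G hG with h2 | ⟨s, hs, hs0, h2⟩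
    · left
      change a i ^ (2 * (m + 2 * m * M₀)) * (ω l G * ω₀ G ^ (2 * m)) = 0
      rw [h2, zero_mul, mul_zero]
    · have h3 : GeQ Q ((Q.ord s : ℚ) - m * δ' Q) (ω l G) := by
        right
        rw [← one_mul (Q.ord s : ℚ)]
        exact_mod_cast h2
      rcases ord_key hle hord hQ hP i hG h3 with h4 | h4
      · exact Or.inl h4
      · exact Or.inr ⟨s, hs, hs0, h4⟩

end

end

end Pool.Agent.L0h17.TR
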