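import Pool.Agent.L0h17.TR.Sel

/-!
The lower bound for the Kodaira dimension of the members of a family, without coordinates.
-/

set_option autoImplicit false
set_option linter.overlappingInstances false
set_option linter.unusedSectionVars false

open FF IntermediateField Pool.Agent.W619.PQ Pool.Agent.W619.PL Pool.Agent.W619.TW
  Pool.Agent.W603.LV Pool.Agent.Y172 Cardinal
open Pool.Agent.W602.GT (Divisorial RegAt IsPluri DerReg exists_der)

namespace Pool.Agent.L0h17.TR

/-- `K_Y - 2 A` is big -/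
def BigTw (E : Type) [Field E] [Algebra ℂ E] (a : ℕ) {ι : Type} (c : ι → E) : Prop :=
  ∃ p : ℕ, 1 ≤ p ∧ ∃ η : (Fin a → Derivation ℂ E E) → E, IsPluri p η ∧ (∃ D, η D ≠ 0) ∧
    ∃ g : Fin a → E, AlgebraicIndependent ℂ g ∧ ∀ P : Place ℂ E, Divisorial a P →
      ∀ (i : ι) (u : E), (u = 1 ∨ ∃ j, u = g j) → RegAt P (fun D => c i ^ (2 * p) * (u * η D))

/-- there are `n` regular differential forms of degree one, linearly independent over the function
field -/
def MaxAlb (k L : Type) [Field k] [Field L] [Algebra k L] (n : ℕ) : Prop :=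
  ∃ β : Fin n → Derivation k L L →ₗ[L] L, LinearIndependent L β ∧
    ∀ i, ∀ P : Place k L, Divisorial n P → ∀ D, DerReg P D → P.Reg (β i D)

section

variable {R Λ Lg K : Type} [Field R] [Field Λ] [Field Lg] [Field K] [Algebra ℂ R] [Algebra ℂ Λ]
  [Algebra ℂ K] [Algebra Λ K] [IsScalarTower ℂ Λ K] [Algebra R K] [IsScalarTower ℂ R K]
  [Algebra.EssFiniteType ℂ R] [CharZero Λ] [Algebra Λ Lg] [Algebra Lg K] [IsScalarTower Λ Lg K]
  [FiniteDimensional Lg K] [Algebra.EssFiniteType Λ K] {c0 a e j : ℕ}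

theorem core2 (hΛ : Algebra.trdeg ℂ Λ = c0) (ha : Algebra.trdeg ℂ R = a)
    (he : Algebra.trdeg Λ Lg = e)
    (hj : Algebra.trdeg Λ (IntermediateField.adjoin Λ (Set.range (algebraMap R K))) = j)
    {ι : Type} [Finite ι] {c : ι → R} (hbig : BigTw R a c)
    (hspan : Submodule.span Lg (Set.range fun i => algebraMap R K (c i)) = ⊤)
    (hcase : j = e ∨ MaxAlb Λ Lg e) : KodR Λ Lg e j := by
  classical
  obtain ⟨r, -, hr, -⟩ := exists_crd (k := ℂ) hΛ
  obtain ⟨yK, hyR, hyind, hyalg⟩ := basis_in (k := Λ) (Set.range (algebraMap R K)) hj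
  choose y' hy' using hyR
  have hyK : (fun i => algebraMap R K (y' i)) = yK := funext hy'
  have hind : AlgebraicIndependent Λ (fun i => algebraMap R K (y' i)) := by rw [hyK]; exact hyind
  have hindC : AlgebraicIndependent ℂ y' := by
    have h1 : AlgebraicIndependent ℂ (fun i => algebraMap R K (y' i)) :=
      hind.restrictScalars (algebraMap ℂ Λ).injective
    exact AlgebraicIndependent.of_comp (IsScalarTower.toAlgHom ℂ R K) h1
  obtain ⟨q, hq, y'', hy⟩ := ext_basis ha hindC
  subst hq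
  have hy'' : ∀ l, IsAlgebraic
      (IntermediateField.adjoin ℂ (Set.range (Fin.append (fun i => algebraMap R K (y' i))
        (fun i => algebraMap Λ K (r i)) : Fin (j + c0) → K))) (algebraMap R K (y'' l)) := by
    intro l
    refine alg_yr hr ?_
    rw [hyK]
    exact hyalg _ (IntermediateField.subset_adjoin _ _ ⟨_, rfl⟩)
  obtain ⟨p, hp, η, hη, hη0, g, hg, hreg⟩ := hbig
  have hessL : Algebra.EssFiniteType Λ Lg := Pool.Agent.TH466.QG.ess_below (K := K)
  have halg : Algebra.IsAlgebraic Lg K := inferInstance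
  have htrK : Algebra.trdeg Λ K = e := by
    rw [Pool.Agent.Y190.BV.trdeg_ext (k := Λ) (K := Lg) (L := K), he]
  obtain ⟨hfin, hrank⟩ := dfin (k := Λ) (K := K) htrK
  have hu := ev_li (k := Λ) (K := K) hind
  rcases hcase with hje | ⟨β, hβ, hβreg⟩
  · subst hje
    obtain ⟨d, hd, τ, G, hdet⟩ := sel_dual hrank hu hu
    have hd0 : d = 0 := by omega
    subst hd0
    exact core (d := 0) hr he ha hy hind hy'' hp hη hη0 hg hreg hspan
      (fun Q _ i => i.elim0) hdet
  · obtain ⟨z, E, hz, hE⟩ := exists_crd (k := Λ) he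
    obtain ⟨d, hd, τ, G, hdet⟩ := sel_dual hrank hu (pb1_li (K := K) he hz hE hβ)
    subst hd
    exact core (d := d) hr he ha hy hind hy'' hp hη hη0 hg hreg hspan
      (fun Q hQ i D hD => pb1_reg he hz hE (hβreg (τ i)) hQ hD) hdet

end

end Pool.Agent.L0h17.TR
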