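import Pool.Agent.L0h17.TR.Ctr
import Pool.Agent.N136.IS.FG

/-!
The fibration.
-/

set_option autoImplicit false
set_option linter.overlappingInstances false
set_option linter.unusedSectionVars false

open FF IntermediateField Pool.Agent.W619.PQ Pool.Agent.W619.PL Pool.Agent.W619.TW
  Pool.Agent.W603.LV Pool.Agent.Y172 Cardinal
open Pool.Agent.W602.GT (Divisorial RegAt IsPluri DerReg exists_der)

namespace Pool.Agent.L0h17.TR

section

variable {Ω : Type} [Field Ω] [Algebra ℂ Ω]

/-- the algebraic closure of `M` in `Ω` -/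
noncomputable def Bar (M : IntermediateField ℂ Ω) : IntermediateField ℂ Ω :=
  (algebraicClosure M Ω).restrictScalars ℂ

theorem mem_bar {M : IntermediateField ℂ Ω} {x : Ω} : x ∈ Bar M ↔ IsAlgebraic M x :=
  mem_algebraicClosure_iff

theorem le_bar (M : IntermediateField ℂ Ω) : M ≤ Bar M := fun x hx =>
  mem_bar.2 (isAlgebraic_algebraMap (⟨x, hx⟩ : M))

theorem bar_bar {M : IntermediateField ℂ Ω} {x : Ω} (h : IsAlgebraic (Bar M) x) : x ∈ Bar M := by
  have h1 : IsAlgebraic (algebraicClosure M Ω) x := h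
  have h2 : Algebra.IsAlgebraic M (algebraicClosure M Ω) := algebraicClosure.isAlgebraic M Ω
  exact mem_bar.2 (h1.restrictScalars M)

theorem alg_le {M N : IntermediateField ℂ Ω} (h : M ≤ N) {x : Ω} (hx : IsAlgebraic M x) :
    IsAlgebraic N x :=
  hx.ringHom_of_comp_eq (IntermediateField.inclusion h).toRingHom (RingHom.id Ω)
    (IntermediateField.inclusion h).injective rfl

theorem bar_mono {M N : IntermediateField ℂ Ω} (h : M ≤ Bar N) : Bar M ≤ Bar N := fun _ hx =>
  bar_bar (alg_le h (mem_bar.1 hx))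

instance bar_closed [IsAlgClosed Ω] (M : IntermediateField ℂ Ω) : IsAlgClosed (Bar M) :=
  (algebraicClosure.isAlgClosure M Ω).isAlgClosed

theorem bar_trdeg (M : IntermediateField ℂ Ω) : Algebra.trdeg ℂ (Bar M) = Algebra.trdeg ℂ M := by
  have h2 : Algebra.IsAlgebraic M (algebraicClosure M Ω) := algebraicClosure.isAlgebraic M Ω
  letI : Algebra ℂ (algebraicClosure M Ω) :=
    ((algebraMap M (algebraicClosure M Ω)).comp (algebraMap ℂ M)).toAlgebra
  have hst : IsScalarTower ℂ M (algebraicClosure M Ω) :=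
    IsScalarTower.of_algebraMap_eq fun z => rfl
  exact Pool.Agent.Y190.BV.trdeg_ext (k := ℂ) (K := M) (L := algebraicClosure M Ω)

theorem trdeg_le {M N : IntermediateField ℂ Ω} (h : M ≤ N) :
    Algebra.trdeg ℂ M ≤ Algebra.trdeg ℂ N :=
  trdeg_le_of_injective (IntermediateField.inclusion h) (IntermediateField.inclusion h).injective

/-- the function field of the geometric general member -/
noncomputable def Gen (M F : IntermediateField ℂ Ω) : IntermediateField (Bar M) Ω :=
  IntermediateField.adjoin (Bar M) (F : Set Ω)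

theorem gen_ess (M F : IntermediateField ℂ Ω) [Algebra.EssFiniteType ℂ F] :
    Algebra.EssFiniteType (Bar M) (Gen M F) := by
  obtain ⟨S, hS⟩ := IntermediateField.essFiniteType_iff.1 ‹Algebra.EssFiniteType ℂ F›
  have h1 : Gen M F = IntermediateField.adjoin (Bar M) (S : Set Ω) := by
    apply le_antisymm
    · refine IntermediateField.adjoin_le_iff.2 fun x hx => ?_
      have h2 : IntermediateField.adjoin ℂ (S : Set Ω) ≤
          (IntermediateField.adjoin (Bar M) (S : Set Ω)).restrictScalars ℂ :=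
        IntermediateField.adjoin_le_iff.2 (IntermediateField.subset_adjoin _ _)
      rw [hS] at h2
      exact h2 hx
    · refine IntermediateField.adjoin.mono _ _ _ ?_
      rw [← hS]
      exact IntermediateField.subset_adjoin _ _
  rw [h1, IntermediateField.essFiniteType_iff]
  exact IntermediateField.fg_adjoin_of_finite S.finite_toSet

theorem ess_le {M N : IntermediateField ℂ Ω} (h : M ≤ N) [Algebra.EssFiniteType ℂ N] :
    Algebra.EssFiniteType ℂ M := by
  classical
  obtain ⟨S, hS⟩ := Pool.Agent.N136.IS.fg_sub (IntermediateField.restrict h)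
  rw [IntermediateField.essFiniteType_iff]
  refine ⟨S.image N.val, ?_⟩
  rw [Finset.coe_image, ← IntermediateField.adjoin_map, hS]
  exact IntermediateField.lift_restrict h

/-- descent of a polynomial -/
theorem descend_poly [IsAlgClosed Ω] {L B : IntermediateField ℂ Ω} {p : Polynomial L}
    (hp : p.Monic) (hB : ∀ y : Ω, Polynomial.aeval y p = 0 → y ∈ B) (n : ℕ) :
    ((p.coeff n : L) : Ω) ∈ B := by
  have h1 : (p.map (algebraMap L Ω)).Splits := IsAlgClosed.splits _
  have h2 := h1.eq_prod_roots_of_monic (hp.map _)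
  have h3 : p.map (algebraMap L Ω) ∈ Polynomial.lifts (algebraMap B Ω) := by
    rw [h2]
    refine Subsemiring.multiset_prod_mem _ _ fun q hq => ?_
    obtain ⟨y, hy, rfl⟩ := Multiset.mem_map.1 hq
    have hy2 : y ∈ B := by
      apply hB
      have h4 := (Polynomial.mem_roots'.1 hy).2
      rwa [Polynomial.IsRoot.def, Polynomial.eval_map_algebraMap] at h4
    refine (Polynomial.mem_lifts _).2 ⟨Polynomial.X - Polynomial.C ⟨y, hy2⟩, ?_⟩
    rw [Polynomial.map_sub, Polynomial.map_X, Polynomial.map_C]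
    rfl
  rw [Polynomial.lifts_iff_coeff_lifts] at h3
  obtain ⟨b, hb⟩ := h3 n
  rw [Polynomial.coeff_map] at hb
  have h5 : ((p.coeff n : L) : Ω) = b := hb.symm
  rw [h5]
  exact b.2

/-- descent of the minimal polynomial -/
theorem descend_min [IsAlgClosed Ω] {L B : IntermediateField ℂ Ω} {x : Ω}
    (hx : IsAlgebraic L x) (hB : ∀ y : Ω, Polynomial.aeval y (minpoly L x) = 0 → y ∈ B) :
    ∃ q : Polynomial (L ⊓ B : IntermediateField ℂ Ω), q.Monic ∧
      q.natDegree = (minpoly L x).natDegree ∧ Polynomial.aeval x q = 0 := by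
  have hint : IsIntegral L x := hx.isIntegral
  have hcoef := descend_poly (minpoly.monic hint) hB
  have hmem : (minpoly L x).map (algebraMap L Ω) ∈
      Polynomial.lifts (algebraMap (L ⊓ B : IntermediateField ℂ Ω) Ω) := by
    rw [Polynomial.lifts_iff_coeff_lifts]
    intro n
    rw [Polynomial.coeff_map]
    exact ⟨⟨((minpoly L x).coeff n : Ω), ((minpoly L x).coeff n).2, hcoef n⟩, rfl⟩
  obtain ⟨q, hq, hdeg, hmon⟩ := Polynomial.lifts_and_natDegree_eq_and_monic hmem
    ((minpoly.monic hint).map _)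
  refine ⟨q, hmon, ?_, ?_⟩
  · rw [hdeg, Polynomial.natDegree_map]
  · rw [← Polynomial.eval_map_algebraMap, hq, Polynomial.eval_map_algebraMap]
    exact minpoly.aeval L x

end

section

variable {Ω : Type} [Field Ω] [Algebra ℂ Ω] [IsAlgClosed Ω] {L E : IntermediateField ℂ Ω}
  {ι : Type} {c : ι → E} {a : ℕ}

theorem dm_conj (hD : Dm L E.val c a) (σ : Ω ≃ₐ[L] Ω) :
    Dm L (((σ.restrictScalars ℂ : Ω ≃ₐ[ℂ] Ω) : Ω →ₐ[ℂ] Ω).comp E.val) c a := by
  refine ⟨hD.dim, fun x => ?_, fun x => ?_, hD.big⟩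
  · exact IsAlgebraic.algHom (σ : Ω →ₐ[L] Ω) (hD.alg x)
  · have h1 := hD.sep x
    have h2 : σ ((x : E) : Ω) ∈ (Submodule.span L (Set.range fun i => (E.val (c i)))).map
        (σ : Ω →ₐ[L] Ω).toLinearMap := ⟨_, h1, rfl⟩
    rw [Submodule.map_span, ← Set.range_comp] at h2
    exact h2

/-- **The fibration.** -/
theorem fib_alg [Algebra.IsAlgebraic L Ω] {B : IntermediateField ℂ Ω}
    (hσ : ∀ (σ : Ω ≃ₐ[L] Ω) (x : E), σ x ∈ B) (hD : Dm L E.val c a) (x : E) :
    IsAlgebraic (L ⊓ B : IntermediateField ℂ Ω) (x : Ω) := by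
  have hnorm : Normal L Ω := by
    have : IsAlgClosure L Ω := ⟨inferInstance, inferInstance⟩
    exact IsAlgClosure.normal L Ω
  have hx : IsAlgebraic L (x : Ω) := hD.alg x
  obtain ⟨q, hq, -, h0⟩ := descend_min hx (B := B) (fun y hy => by
    obtain ⟨σ, hσ'⟩ := minpoly.exists_algEquiv_of_root' hx hy
    rw [← hσ']
    exact hσ σ x)
  exact IsIntegral.isAlgebraic ⟨q, hq, h0⟩

/-- the functions which separate the points separate them over the base of the fibration -/
theorem sep_base [Algebra.IsAlgebraic L Ω] [Algebra.EssFiniteType ℂ E] [Finite ι]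
    {Z : IntermediateField ℂ Ω} (hZL : Z ≤ L) (hZ : L ⊓ Bar Z ≤ Z)
    (hE : ∀ x : E, IsAlgebraic Z (x : Ω)) {x : E}
    (hx : (x : Ω) ∈ Submodule.span L (Set.range fun i => (c i : Ω))) :
    (x : Ω) ∈ Submodule.span Z (Set.range fun i => (c i : Ω)) := by
  classical
  have := Fintype.ofFinite ι
  have hnorm : Normal L Ω := by
    have : IsAlgClosure L Ω := ⟨inferInstance, inferInstance⟩
    exact IsAlgClosure.normal L Ω
  have hLB : L ⊓ Bar Z = Z := le_antisymm hZ (le_inf hZL (le_bar Z))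
  let T : IntermediateField Z Ω := IntermediateField.adjoin Z (E : Set Ω)
  have hfd : FiniteDimensional Z T := by
    obtain ⟨S, hS⟩ := IntermediateField.essFiniteType_iff.1 ‹Algebra.EssFiniteType ℂ E›
    have h1 : T = IntermediateField.adjoin Z (S : Set Ω) := by
      apply le_antisymm
      · refine IntermediateField.adjoin_le_iff.2 fun x hx => ?_
        have h2 : IntermediateField.adjoin ℂ (S : Set Ω) ≤
            (IntermediateField.adjoin Z (S : Set Ω)).restrictScalars ℂ :=
          IntermediateField.adjoin_le_iff.2 (IntermediateField.subset_adjoin _ _)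
        rw [hS] at h2
        exact h2 hx
      · refine IntermediateField.adjoin.mono _ _ _ ?_
        rw [← hS]
        exact IntermediateField.subset_adjoin _ _
    rw [h1]
    have : Finite (S : Set Ω) := S.finite_toSet.to_subtype
    refine IntermediateField.finiteDimensional_adjoin fun y hy => ?_
    have h2 : y ∈ E := by
      rw [← hS]
      exact IntermediateField.subset_adjoin _ _ hy
    exact (hE ⟨y, h2⟩).isIntegral
  have hET : ∀ y : E, (y : Ω) ∈ T := fun y => IntermediateField.subset_adjoin _ _ y.2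
  let pb : PowerBasis Z T := Field.powerBasisOfFiniteOfSeparable Z T
  -- the degree
  have hθ : IsAlgebraic Z ((pb.gen : T) : Ω) :=
    (Algebra.IsAlgebraic.isAlgebraic (R := Z) pb.gen).algebraMap (A := Ω)
  have hθL : IsAlgebraic L ((pb.gen : T) : Ω) := alg_le hZL hθ
  have hdeg : pb.dim ≤ (minpoly L ((pb.gen : T) : Ω)).natDegree := by
    have h1 := descend_min hθL (B := Bar Z) (fun y hy => by
      obtain ⟨σ, hσ⟩ := minpoly.exists_algEquiv_of_root' hθL hy
      rw [← hσ]
      refine mem_bar.2 ?_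
      exact hθ.ringHom_of_comp_eq (RingHom.id Z) (σ : Ω →+* Ω) Function.injective_id (by
        ext z
        have h2 := σ.commutes ⟨(z : Ω), hZL z.2⟩
        exact h2.symm))
    rw [hLB] at h1
    obtain ⟨q, hq, hqd, h0⟩ := h1
    rw [← hqd, ← pb.natDegree_minpoly]
    refine Polynomial.natDegree_le_of_dvd (minpoly.dvd Z pb.gen ?_) hq.ne_zero
    apply (algebraMap T Ω).injective
    rw [map_zero, ← Polynomial.aeval_algebraMap_apply]
    exact h0
  have hli : LinearIndependent L (fun k : Fin pb.dim => ((pb.gen : T) : Ω) ^ (k : ℕ)) := by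
    have h1 := linearIndependent_pow (K := L) ((pb.gen : T) : Ω)
    exact h1.comp (Fin.castLE hdeg) (Fin.castLE_injective hdeg)
  rw [Fintype.linearIndependent_iff] at hli
  by_contra hnot
  let W : Submodule Z T := Submodule.span Z (Set.range fun i => (⟨(c i : Ω), hET (c i)⟩ : T))
  have hxW : (⟨(x : Ω), hET x⟩ : T) ∉ W := by
    intro h1
    apply hnot
    have h2 : ((⟨(x : Ω), hET x⟩ : T) : Ω) ∈ W.map (T.val.toLinearMap) := ⟨_, h1, rfl⟩
    rw [Submodule.map_span, ← Set.range_comp] at h2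
    exact h2
  obtain ⟨f, hf0, hf⟩ := Submodule.exists_le_ker_of_notMem hxW
  obtain ⟨l, hl⟩ := (Submodule.mem_span_range_iff_exists_fun L).1 hx
  let b := pb.basis
  have hb : ∀ k, ((b k : T) : Ω) = ((pb.gen : T) : Ω) ^ (k : ℕ) := by
    intro k
    rw [pb.basis_eq_pow]
    rfl
  have hexp : ∀ y : T, (y : Ω) = ∑ k, ((b.repr y k : Z) : Ω) * ((pb.gen : T) : Ω) ^ (k : ℕ) := by
    intro y
    have h1 : ((∑ k, b.repr y k • b k : T) : Ω) = (y : Ω) := by rw [b.sum_repr]
    rw [← h1]
    have h2 : ((∑ k, b.repr y k • b k : T) : Ω) = ∑ k, ((b.repr y k • b k : T) : Ω) := by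
      exact map_sum (algebraMap T Ω) _ _
    rw [h2]
    refine Finset.sum_congr rfl fun k _ => ?_
    rw [← hb, IntermediateField.coe_smul]
    rfl
  let ZL : Z → L := fun z => ⟨(z : Ω), hZL z.2⟩
  let xT : T := ⟨(x : Ω), hET x⟩
  let cT : ι → T := fun i => ⟨(c i : Ω), hET (c i)⟩
  have hrel := hli (fun k => ZL (b.repr xT k) - ∑ i, l i * ZL (b.repr (cT i) k)) (by
    have h1 := hexp xT
    have h2 : ∀ i, (c i : Ω) = _ := fun i => hexp (cT i)
    have h3 : (xT : Ω) = ∑ i, (l i : Ω) * (c i : Ω) := by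
      rw [show (xT : Ω) = x from rfl, ← hl]
      exact Finset.sum_congr rfl fun i _ => rfl
    have h4 : ∀ k, (ZL (b.repr xT k) - ∑ i, l i * ZL (b.repr (cT i) k)) •
        ((pb.gen : T) : Ω) ^ (k : ℕ) = ((b.repr xT k : Z) : Ω) * ((pb.gen : T) : Ω) ^ (k : ℕ) -
        ∑ i, (l i : Ω) * (((b.repr (cT i) k : Z) : Ω) * ((pb.gen : T) : Ω) ^ (k : ℕ)) := by
      intro k
      have h5 : (ZL (b.repr xT k) - ∑ i, l i * ZL (b.repr (cT i) k)) •
          ((pb.gen : T) : Ω) ^ (k : ℕ) =
          ((ZL (b.repr xT k) - ∑ i, l i * ZL (b.repr (cT i) k) : L) : Ω) *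
            ((pb.gen : T) : Ω) ^ (k : ℕ) := rfl
      have h6 : ((ZL (b.repr xT k) - ∑ i, l i * ZL (b.repr (cT i) k) : L) : Ω) =
          ((b.repr xT k : Z) : Ω) - ∑ i, (l i : Ω) * ((b.repr (cT i) k : Z) : Ω) := by
        have h7 := map_sum (algebraMap L Ω) (fun i => l i * ZL (b.repr (cT i) k)) Finset.univ
        have h8 : ((ZL (b.repr xT k) - ∑ i, l i * ZL (b.repr (cT i) k) : L) : Ω) =
            (ZL (b.repr xT k) : Ω) - algebraMap L Ω (∑ i, l i * ZL (b.repr (cT i) k)) := rfl
        rw [h8, h7]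
        rfl
      rw [h5, h6, sub_mul, Finset.sum_mul]
      congr 1
      exact Finset.sum_congr rfl fun i _ => by ring
    simp only [h4]
    rw [Finset.sum_sub_distrib, ← h1, h3, Finset.sum_comm, sub_eq_zero]
    refine Finset.sum_congr rfl fun i _ => ?_
    rw [← Finset.mul_sum, ← h2])
  -- the functional
  have hfT : ∀ y : T, f y = ∑ k, b.repr y k * f (b k) := by
    intro y
    conv_lhs => rw [← b.sum_repr y]
    rw [map_sum]
    exact Finset.sum_congr rfl fun k _ => by rw [map_smul, smul_eq_mul]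
  have hfc : ∀ i, f (cT i) = 0 := fun i => hf (Submodule.subset_span ⟨i, rfl⟩)
  apply hf0
  have h9 : (ZL (f xT) : L) = 0 := by
    have hadd : ∀ z w : Z, ZL (z + w) = ZL z + ZL w := fun z w => rfl
    have hmul : ∀ z w : Z, ZL (z * w) = ZL z * ZL w := fun z w => rfl
    have h0 : ZL 0 = 0 := rfl
    have hsum : ∀ g : Fin pb.dim → Z, ZL (∑ k, g k) = ∑ k, ZL (g k) := by
      intro g
      exact map_sum (IntermediateField.inclusion hZL) g Finset.univ
    rw [hfT, hsum]
    have h10 : ∀ k, ZL (b.repr xT k) = ∑ i, l i * ZL (b.repr (cT i) k) := fun k =>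
      sub_eq_zero.1 (hrel k)
    simp only [hmul, h10, Finset.sum_mul]
    rw [Finset.sum_comm]
    refine Finset.sum_eq_zero fun i _ => ?_
    have h11 : ZL (f (cT i)) = ∑ k, ZL (b.repr (cT i) k) * ZL (f (b k)) := by
      rw [hfT, hsum]
      rfl
    rw [hfc, h0] at h11
    calc ∑ k, l i * ZL (b.repr (cT i) k) * ZL (f (b k)) =
        l i * ∑ k, ZL (b.repr (cT i) k) * ZL (f (b k)) := by
          rw [Finset.mul_sum]
          exact Finset.sum_congr rfl fun k _ => by ring
      _ = 0 := by rw [← h11, mul_zero]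
  have h12 : ((f xT : Z) : Ω) = 0 := congrArg (fun z : L => (z : Ω)) h9
  exact Subtype.ext h12

end

section

variable {Ω R : Type} [Field Ω] [Algebra ℂ Ω] [Field R] [Algebra ℂ R]
  {Z : IntermediateField ℂ Ω} {φ : R →ₐ[ℂ] Ω} {ι : Type} {c : ι → R} {a : ℕ}

/-- the base is of general type -/
theorem gt_base [Algebra.EssFiniteType ℂ R] [Algebra.EssFiniteType ℂ Z] [Finite ι]
    (hD : Dm Z φ c a) (hZ : Algebra.trdeg ℂ Z = a) : KodR ℂ Z a a := by
  have hst : IsScalarTower ℂ ℂ Ω := inferInstance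
  have h0 : Algebra.trdeg ℂ ℂ = (0 : ℕ) := by
    rw [trdeg_eq_zero]
    rfl
  refine core_gen (Λ := ℂ) (Lg := Z) hD h0 (fun x hx => ⟨⟨x, hx⟩, rfl⟩) hZ ?_ (Or.inl rfl)
  rw [← hD.dim]
  have h1 : IntermediateField.adjoin ℂ (Set.range φ) = φ.fieldRange := by
    apply le_antisymm
    · rw [IntermediateField.adjoin_le_iff]
      rintro _ ⟨x, rfl⟩
      exact ⟨x, rfl⟩
    · rintro _ ⟨x, rfl⟩
      exact IntermediateField.subset_adjoin _ _ ⟨x, rfl⟩
  rw [h1]
  exact (AlgEquiv.trdeg_eq (AlgEquiv.ofInjective φ φ.injective)).symm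

end

end Pool.Agent.L0h17.TR
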