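import Pool.Agent.L0h17.KU.Prd2

/-!
Restriction of scalars of places; coordinates at a place with given residues.
-/

set_option autoImplicit false
set_option linter.overlappingInstances false
set_option linter.unusedSectionVars false

open FF IntermediateField Pool.Agent.W619.PQ Pool.Agent.W619.PL Pool.Agent.W619.TW
  Pool.Agent.W603.LV Pool.Agent.W240.PG.Frame
open Pool.Agent.W602.GT (Divisorial RegAt IsPluri DerReg)

namespace Pool.Agent.L0h17.TR

section

variable {k N : Type} [Field k] [CharZero k] [Field N] [Algebra k N] {m : ℕ}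

/-- coordinates with given residues, and a given uniformizer, and the dual regular vector fields -/
theorem frame_of [Algebra.EssFiniteType k N] (v : Place k N) (htr : Algebra.trdeg k N ≤ (m + 1 : ℕ))
    {s : N} (hs : v.ord s = 1) {y' : Fin m → N}
    (hy : ∀ p : MvPolynomial (Fin m) k, p ≠ 0 →
      MvPolynomial.aeval y' p ≠ 0 ∧ v.ord (MvPolynomial.aeval y' p) = 0) :
    ∃ E : Fin (m + 1) → Derivation k N N,
      IsTranscendenceBasis k (Fin.cons s y' : Fin (m + 1) → N) ∧
      (∀ i j, E i ((Fin.cons s y' : Fin (m + 1) → N) j) = if i = j then 1 else 0) ∧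
      (∀ i, v.Reg ((Fin.cons s y' : Fin (m + 1) → N) i)) ∧ ∀ i, DerReg v (E i) := by
  have h := Pool.Agent.W619.Y.pPRES.{0, 0}
  have hs0 : s ≠ 0 := by
    rintro rfl
    rw [v.ord_zero] at hs
    norm_num at hs
  set y : Fin (m + 1) → N := Fin.cons s y' with hydef
  have hind : AlgebraicIndependent k y := by
    rw [algebraicIndependent_iff]
    intro P hP
    by_contra hP0
    have h1 : MvPolynomial.finSuccEquiv k m P ≠ 0 := by
      intro h2
      apply hP0
      exact (map_eq_zero_iff _ (MvPolynomial.finSuccEquiv k m).injective).1 h2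
    obtain ⟨t, Q', hQ, hQ0, -⟩ := psi_factor v hs hy _ h1
    rw [hydef, aeval_cons, hQ] at hP
    exact (mul_ne_zero (pow_ne_zero t hs0) hQ0) hP
  have hbas : IsTranscendenceBasis k y := by
    apply hind.isTranscendenceBasis_of_lift_trdeg_le_of_finite
    simpa using htr
  choose E hE using fun i : Fin (m + 1) => exists_dual y hbas i
  have hregy : ∀ i, v.Reg (y i) := by
    intro i
    refine Fin.cases ?_ (fun j => ?_) i
    · right; rw [hydef, Fin.cons_zero, hs]; norm_num
    · right
      rw [hydef, Fin.cons_succ]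
      have h1 := (hy (MvPolynomial.X j) (MvPolynomial.X_ne_zero j)).2
      rw [MvPolynomial.aeval_X] at h1
      exact h1.ge
  have hEreg : ∀ (i : Fin (m + 1)) (P : MvPolynomial (Fin (m + 1)) k),
      Ge v 0 (MvPolynomial.aeval y P) ∧ Ge v 0 (E i (MvPolynomial.aeval y P)) := by
    intro i P
    induction P using MvPolynomial.induction_on with
    | C a =>
      have h1 : MvPolynomial.aeval y (MvPolynomial.C a : MvPolynomial (Fin (m + 1)) k) =
          algebraMap k N a := by simp
      rw [h1]
      refine ⟨Ge.const a, ?_⟩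
      rw [Derivation.map_algebraMap]
      exact Or.inl rfl
    | add p q hp hq =>
      rw [map_add, map_add]
      exact ⟨hp.1.add hq.1, hp.2.add hq.2⟩
    | mul_X p j hp =>
      rw [map_mul, MvPolynomial.aeval_X]
      have h1 : Ge v 0 (y j) := hregy j
      have h2 : Ge v 0 (E i (y j)) := by
        rw [hE]
        split_ifs
        · exact Ge.one
        · exact Or.inl rfl
      refine ⟨by simpa using hp.1.mul h1, ?_⟩
      rw [Derivation.leibniz, smul_eq_mul, smul_eq_mul]
      have h3 := hp.1.mul h2
      have h4 := h1.mul hp.2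
      rw [add_zero] at h3 h4
      exact h3.add h4
  -- the field generated by the coordinates
  let K0 : IntermediateField k N := IntermediateField.adjoin k (Set.range y)
  have hfd : FiniteDimensional K0 N := Pool.Agent.Y172.fd_basis hbas
  have hsK : s ∈ K0 := by
    apply IntermediateField.subset_adjoin
    exact ⟨0, by rw [hydef, Fin.cons_zero]⟩
  let v0 : Place k K0 :=
    { ord := fun f => v.ord (f : N)
      ord_zero := v.ord_zero
      ord_mul := fun {f g} hf hg => by
        have hf' : (f : N) ≠ 0 := fun h => hf (Subtype.ext h)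
        have hg' : (g : N) ≠ 0 := fun h => hg (Subtype.ext h)
        exact v.ord_mul hf' hg'
      ord_add := fun {f g} hf hg hfg => by
        have hf' : (f : N) ≠ 0 := fun h => hf (Subtype.ext h)
        have hg' : (g : N) ≠ 0 := fun h => hg (Subtype.ext h)
        have hfg' : (f : N) + (g : N) ≠ 0 := fun h => hfg (Subtype.ext h)
        exact v.ord_add hf' hg' hfg'
      ord_const := fun {c} hc => v.ord_const hc
      surj := ⟨⟨s, hsK⟩, fun h => hs0 (congrArg Subtype.val h), hs⟩ }
  have hover : Over v v0 1 := ⟨one_pos, fun f => by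
    rw [Nat.cast_one, one_mul]; rfl⟩
  refine ⟨E, hbas, ?_, hregy, ?_⟩
  · intro i j
    rw [hE]
    by_cases hij : j = i
    · rw [if_pos hij, if_pos hij.symm]
    · rw [if_neg hij, if_neg (Ne.symm hij)]
  · intro i
    refine h k K0 N v0 v 1 hover (E i) ?_ (Or.inl rfl)
    intro x hx
    change Ge v 0 (E i (x : N))
    have hxr : Ge v 0 (x : N) := by
      rcases hx with hx | hx
      · left; rw [hx]; rfl
      · right; exact hx
    by_cases hx0 : (x : N) = 0
    · rw [hx0, map_zero]; exact Or.inl rfl
    have hxm : (x : N) ∈ IntermediateField.adjoin k (Set.range y) := x.2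
    rw [IntermediateField.mem_adjoin_range_iff] at hxm
    obtain ⟨p, q, hpq⟩ := hxm
    have hp0 : MvPolynomial.aeval y p ≠ 0 := by
      intro h1; apply hx0; rw [hpq, h1, zero_div]
    have hq0 : MvPolynomial.aeval y q ≠ 0 := by
      intro h1; apply hx0; rw [hpq, h1, div_zero]
    have hp1 : MvPolynomial.finSuccEquiv k m p ≠ 0 := by
      intro h2
      apply hp0
      rw [(map_eq_zero_iff _ (MvPolynomial.finSuccEquiv k m).injective).1 h2, map_zero]
    have hq1 : MvPolynomial.finSuccEquiv k m q ≠ 0 := by
      intro h2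
      apply hq0
      rw [(map_eq_zero_iff _ (MvPolynomial.finSuccEquiv k m).injective).1 h2, map_zero]
    obtain ⟨a, P', hP, hP0, hPo⟩ := psi_factor v hs hy _ hp1
    obtain ⟨b, Q', hQ, hQ0, hQo⟩ := psi_factor v hs hy _ hq1
    rw [← aeval_cons, ← hydef] at hP hQ
    -- the exponent is nonnegative
    have hab : b ≤ a := by
      have h1 : 0 ≤ v.ord (x : N) := hxr.resolve_left hx0
      rw [hpq, v.ord_div hp0 hq0, hP, hQ, v.ord_mul (pow_ne_zero _ hs0) hP0,
        v.ord_mul (pow_ne_zero _ hs0) hQ0, v.ord_pow, v.ord_pow, hs, hPo, hQo] at h1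
      omega
    -- numerator and denominator
    set Pn : MvPolynomial (Fin (m + 1)) k :=
      (MvPolynomial.finSuccEquiv k m).symm (Polynomial.X ^ (a - b) * P') with hPn
    set Qn : MvPolynomial (Fin (m + 1)) k := (MvPolynomial.finSuccEquiv k m).symm Q' with hQn
    have hPe : MvPolynomial.aeval y Pn = s ^ (a - b) * psi s y' P' := by
      rw [hydef, aeval_cons, hPn, AlgEquiv.apply_symm_apply, map_mul, map_pow]
      simp [Pool.Agent.W240.PG.Frame.psi]
    have hQe : MvPolynomial.aeval y Qn = psi s y' Q' := by
      rw [hydef, aeval_cons, hQn, AlgEquiv.apply_symm_apply]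
    have hx2 : (x : N) * MvPolynomial.aeval y Qn = MvPolynomial.aeval y Pn := by
      rw [hPe, hQe, hpq, hP, hQ]
      have h5 : s ^ a = s ^ (a - b) * s ^ b := by rw [← pow_add]; congr 1; omega
      have h6 : s ^ b ≠ 0 := pow_ne_zero _ hs0
      rw [h5]
      field_simp
    have hD := congrArg (E i) hx2
    rw [Derivation.leibniz, smul_eq_mul, smul_eq_mul] at hD
    have h7 : Ge v 0 (MvPolynomial.aeval y Qn * E i (x : N)) := by
      have h8 : MvPolynomial.aeval y Qn * E i (x : N) =
          E i (MvPolynomial.aeval y Pn) - (x : N) * E i (MvPolynomial.aeval y Qn) := by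
        linear_combination hD
      rw [h8]
      have h9 := hxr.mul (hEreg i Qn).2
      rw [add_zero] at h9
      exact (hEreg i Pn).2.sub h9
    rw [hQe] at h7
    have h10 := Ge.of_mul hQ0 h7
    rw [hQo, sub_zero] at h10
    exact h10

end

section

variable {k Λ K : Type} [Field k] [Field Λ] [Field K] [Algebra k Λ] [Algebra k K] [Algebra Λ K]
  [IsScalarTower k Λ K]

/-- restriction of scalars -/
def rcs (k : Type) {Λ K : Type} [Field k] [Field Λ] [Field K] [Algebra k Λ] [Algebra k K]
    [Algebra Λ K] [IsScalarTower k Λ K] (Q : Place Λ K) : Place k K where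
  ord := Q.ord
  ord_zero := Q.ord_zero
  ord_mul := Q.ord_mul
  ord_add := Q.ord_add
  ord_const := fun {c} hc => by
    rw [IsScalarTower.algebraMap_apply k Λ K]
    exact Q.ord_const (by simpa using hc)
  surj := Q.surj

theorem rcs_ord (Q : Place Λ K) (z : K) : (rcs k Q).ord z = Q.ord z := rfl

theorem rcs_reg (Q : Place Λ K) (z : K) : (rcs k Q).Reg z ↔ Q.Reg z := Iff.rfl

theorem rcs_ge (Q : Place Λ K) (n : ℤ) (z : K) : Ge (rcs k Q) n z ↔ Ge Q n z := Iff.rfl

/-- restriction of a place to a subfield which contains a uniformizer -/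
def rsb {k K N : Type} [Field k] [Field K] [Field N] [Algebra k K] [Algebra k N] [Algebra N K]
    [IsScalarTower k N K] (Q : Place k K) (s : N) (hs : Q.ord (algebraMap N K s) = 1) :
    Place k N where
  ord := fun z => Q.ord (algebraMap N K z)
  ord_zero := by rw [map_zero, Q.ord_zero]
  ord_mul := fun {f g} hf hg => by
    rw [map_mul]
    exact Q.ord_mul (by simpa using hf) (by simpa using hg)
  ord_add := fun {f g} hf hg hfg => by
    rw [map_add]
    exact Q.ord_add (by simpa using hf) (by simpa using hg) (by
      rw [← map_add]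
      exact fun h => hfg ((map_eq_zero (algebraMap N K)).1 h))
  ord_const := fun {c} hc => by
    rw [← IsScalarTower.algebraMap_apply k N K]
    exact Q.ord_const hc
  surj := ⟨s, fun h => by rw [h, map_zero, Q.ord_zero] at hs; norm_num at hs, hs⟩

end

end Pool.Agent.L0h17.TR
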