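import Pool.Agent.L0h17.TR.Core2

/-!
The geometric setting.
-/

set_option autoImplicit false
set_option linter.overlappingInstances false
set_option linter.unusedSectionVars false

open FF IntermediateField Pool.Agent.W619.PQ Pool.Agent.W619.PL Pool.Agent.W619.TW
  Pool.Agent.W603.LV Pool.Agent.Y172 Cardinal
open Pool.Agent.W602.GT (Divisorial RegAt IsPluri DerReg exists_der)

namespace Pool.Agent.L0h17.TR

section

variable {Ω R : Type} [Field Ω] [Algebra ℂ Ω] [Field R] [Algebra ℂ R]

/-- the multivalued fibration -/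
structure Dm (L : IntermediateField ℂ Ω) (φ : R →ₐ[ℂ] Ω) {ι : Type} (c : ι → R) (a : ℕ) :
    Prop where
  dim : Algebra.trdeg ℂ R = a
  alg : ∀ x, IsAlgebraic L (φ x)
  sep : ∀ x, φ x ∈ Submodule.span L (Set.range fun i => φ (c i))
  big : BigTw R a c

variable {L : IntermediateField ℂ Ω} {φ : R →ₐ[ℂ] Ω} {ι : Type} {c : ι → R} {a : ℕ}
  {Λ Lg : Type} [Field Λ] [Field Lg] [Algebra ℂ Λ] [Algebra Λ Lg] [Algebra Λ Ω] [Algebra Lg Ω]
  [IsScalarTower ℂ Λ Ω] [IsScalarTower Λ Lg Ω]

theorem alg_gen (hLG : ∀ x ∈ L, x ∈ Set.range (algebraMap Lg Ω)) {z : Ω}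
    (hz : IsAlgebraic L z) : IsAlgebraic Lg z := by
  let e : Lg ≃+* (algebraMap Lg Ω).range :=
    RingEquiv.ofBijective (algebraMap Lg Ω).rangeRestrict
      ⟨fun x y h => (algebraMap Lg Ω).injective (congrArg Subtype.val h),
        (algebraMap Lg Ω).rangeRestrict_surjective⟩
  let f : L →+* Lg := (e.symm : (algebraMap Lg Ω).range →+* Lg).comp
    ((algebraMap L Ω).codRestrict (algebraMap Lg Ω).range fun x => hLG _ x.2)
  refine hz.ringHom_of_comp_eq f (RingHom.id Ω) (RingHom.injective _) ?_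
  ext x
  have h1 : ∀ y : (algebraMap Lg Ω).range, algebraMap Lg Ω (e.symm y) = y := by
    intro y
    have h2 : ((e (e.symm y) : (algebraMap Lg Ω).range) : Ω) = y := by
      rw [e.apply_symm_apply]
    exact h2
  exact h1 _

theorem sep_gen (hD : Dm L φ c a) (hLG : ∀ x ∈ L, x ∈ Set.range (algebraMap Lg Ω))
    {z : Ω} (hz : z ∈ IntermediateField.adjoin Lg (Set.range φ)) :
    z ∈ Submodule.span Lg (Set.range fun i => φ (c i)) := by
  have h1 : ∀ x : R, φ x ∈ Submodule.span Lg (Set.range fun i => φ (c i)) := by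
    intro x
    have h2 := hD.sep x
    refine Submodule.span_induction (p := fun y _ => y ∈ Submodule.span Lg
      (Set.range fun i => φ (c i))) ?_ ?_ ?_ ?_ h2
    · intro y hy
      exact Submodule.subset_span hy
    · exact Submodule.zero_mem _
    · intro y z _ _ hy hz
      exact Submodule.add_mem _ hy hz
    · intro l y _ hy
      obtain ⟨l', hl'⟩ := hLG _ l.2
      have h3 : l • y = l' • y := by
        rw [Algebra.smul_def l', hl']
        rfl
      rw [h3]
      exact Submodule.smul_mem _ _ hy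
  have h4 : (IntermediateField.adjoin Lg (Set.range φ)).toSubalgebra =
      Algebra.adjoin Lg (Set.range φ) := by
    refine IntermediateField.adjoin_toSubalgebra_of_isAlgebraic ?_
    rintro _ ⟨x, rfl⟩
    exact alg_gen hLG (hD.alg x)
  have h5 : z ∈ Algebra.adjoin Lg (Set.range φ) := by
    rw [← h4]
    exact hz
  have h6 : z ∈ Subalgebra.toSubmodule (Algebra.adjoin Lg (Set.range φ)) := h5
  rw [Algebra.adjoin_eq_span] at h6
  have h7 : ((Submonoid.closure (Set.range φ) : Submonoid Ω) : Set Ω) ⊆ Set.range φ := by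
    have h8 : Submonoid.closure (Set.range φ) ≤ MonoidHom.mrange (φ : R →* Ω) := by
      rw [Submonoid.closure_le]
      rintro _ ⟨x, rfl⟩
      exact ⟨x, rfl⟩
    intro y hy
    obtain ⟨x, hx⟩ := h8 hy
    exact ⟨x, hx⟩
  refine Submodule.span_le.2 ?_ (Submodule.span_mono h7 h6)
  rintro _ ⟨x, rfl⟩
  exact h1 x

theorem core_gen [Algebra.EssFiniteType ℂ R] [Finite ι] (hD : Dm L φ c a)
    [Algebra.EssFiniteType Λ Lg] {c0 e j : ℕ} (hΛ : Algebra.trdeg ℂ Λ = c0)
    (hLG : ∀ x ∈ L, x ∈ Set.range (algebraMap Lg Ω)) (he : Algebra.trdeg Λ Lg = e)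
    (hj : Algebra.trdeg Λ (IntermediateField.adjoin Λ (Set.range φ)) = j)
    (hcase : j = e ∨ MaxAlb Λ Lg e) : KodR Λ Lg e j := by
  classical
  have hchar : CharZero Λ := charZero_of_injective_algebraMap (algebraMap ℂ Λ).injective
  let K : IntermediateField Lg Ω := IntermediateField.adjoin Lg (Set.range φ)
  have hφK : ∀ x, φ x ∈ K := fun x => IntermediateField.subset_adjoin _ _ ⟨x, rfl⟩
  letI : Algebra R K := ((φ : R →+* Ω).codRestrict K hφK).toAlgebra
  letI : Algebra Λ K := ((algebraMap Lg K).comp (algebraMap Λ Lg)).toAlgebra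
  letI : Algebra ℂ K := ((algebraMap Λ K).comp (algebraMap ℂ Λ)).toAlgebra
  have hcL : ∀ z : ℂ, ((algebraMap ℂ K z : K) : Ω) = algebraMap ℂ Ω z := by
    intro z
    rw [IsScalarTower.algebraMap_apply ℂ Λ Ω, IsScalarTower.algebraMap_apply Λ Lg Ω]
    rfl
  have hst1 : IsScalarTower ℂ R K := IsScalarTower.of_algebraMap_eq fun z => by
    apply Subtype.ext
    rw [hcL]
    exact (φ.commutes z).symm
  have hst2 : IsScalarTower ℂ Λ K := IsScalarTower.of_algebraMap_eq fun z => rfl
  have hst3 : IsScalarTower Λ Lg K := IsScalarTower.of_algebraMap_eq fun z => rfl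
  -- finiteness
  obtain ⟨S, hS⟩ := IntermediateField.fg_top ℂ R
  have hK : K = IntermediateField.adjoin Lg (φ '' (S : Set R)) := by
    apply le_antisymm
    · refine IntermediateField.adjoin_le_iff.2 ?_
      rintro _ ⟨x, rfl⟩
      have h1 : x ∈ IntermediateField.adjoin ℂ (S : Set R) := by rw [hS]; trivial
      have h2 : φ x ∈ (IntermediateField.adjoin ℂ (S : Set R)).map φ := ⟨x, h1, rfl⟩
      rw [IntermediateField.adjoin_map] at h2
      have h3 : (IntermediateField.adjoin ℂ (φ '' (S : Set R))).toSubfield ≤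
          (IntermediateField.adjoin Lg (φ '' (S : Set R))).toSubfield := by
        rw [IntermediateField.adjoin_toSubfield, Subfield.closure_le]
        rintro _ (⟨z, rfl⟩ | hz)
        · rw [IsScalarTower.algebraMap_apply ℂ Λ Ω, IsScalarTower.algebraMap_apply Λ Lg Ω]
          exact (IntermediateField.adjoin Lg (φ '' (S : Set R))).algebraMap_mem _
        · exact IntermediateField.subset_adjoin _ _ hz
      exact h3 h2
    · exact IntermediateField.adjoin.mono _ _ _ (Set.image_subset_range _ _)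
  have hfd : FiniteDimensional Lg K := by
    rw [hK]
    have : Finite (φ '' (S : Set R)) := (S.finite_toSet.image _).to_subtype
    refine IntermediateField.finiteDimensional_adjoin ?_
    rintro _ ⟨x, _, rfl⟩
    exact (alg_gen hLG (hD.alg x)).isIntegral
  have hess : Algebra.EssFiniteType Λ K := Algebra.EssFiniteType.comp Λ Lg K
  -- the span
  have hspan : Submodule.span Lg (Set.range fun i => algebraMap R K (c i)) = ⊤ := by
    rw [eq_top_iff]
    rintro z -
    have h1 := sep_gen hD hLG z.2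
    have h2 : (Set.range fun i => φ (c i)) = (K.val.toLinearMap : K →ₗ[Lg] Ω) ''
        Set.range fun i => algebraMap R K (c i) := by
      rw [← Set.range_comp]
      rfl
    rw [h2, Submodule.span_image] at h1
    obtain ⟨y, hy, hyz⟩ := h1
    have h3 : y = z := Subtype.ext hyz
    exact h3 ▸ hy
  -- the transcendence degree
  have hj' : Algebra.trdeg Λ (IntermediateField.adjoin Λ (Set.range (algebraMap R K))) = j := by
    have hst4 : IsScalarTower Λ K Ω := IsScalarTower.of_algebraMap_eq fun z => by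
      rw [IsScalarTower.algebraMap_apply Λ Lg Ω]
      rfl
    let f : K →ₐ[Λ] Ω := IsScalarTower.toAlgHom Λ K Ω
    have h1 : (IntermediateField.adjoin Λ (Set.range (algebraMap R K))).map f =
        IntermediateField.adjoin Λ (Set.range φ) := by
      rw [IntermediateField.adjoin_map, ← Set.range_comp]
      rfl
    rw [← hj, ← h1]
    exact AlgEquiv.trdeg_eq (IntermediateField.equivMap _ f)
  exact core2 hΛ hD.dim he hj' hD.big hspan hcase

end

section

variable {Ω R : Type} [Field Ω] [Algebra ℂ Ω] [Field R] [Algebra ℂ R]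
  {L : IntermediateField ℂ Ω} {φ : R →ₐ[ℂ] Ω} {ι : Type} {c : ι → R} {a : ℕ}

theorem alg_up (Λ : IntermediateField ℂ Ω) (G : IntermediateField Λ Ω)
    (hLG : ∀ x ∈ L, x ∈ G) {z : Ω} (hz : IsAlgebraic L z) : IsAlgebraic G z := by
  refine hz.ringHom_of_comp_eq ((algebraMap L Ω).codRestrict G fun x => hLG _ x.2)
    (RingHom.id Ω) (RingHom.injective _) rfl

theorem core3 [Algebra.EssFiniteType ℂ R] [Finite ι] (hD : Dm L φ c a)
    (Λ : IntermediateField ℂ Ω) (G : IntermediateField Λ Ω) [Algebra.EssFiniteType Λ G]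
    {c0 e j : ℕ} (hΛ : Algebra.trdeg ℂ Λ = c0) (hLG : ∀ x ∈ L, x ∈ G)
    (he : Algebra.trdeg Λ G = e)
    (hj : Algebra.trdeg Λ (IntermediateField.adjoin Λ (Set.range φ)) = j)
    (hcase : j = e ∨ MaxAlb Λ G e) : KodR Λ G e j :=
  core_gen (Λ := Λ) (Lg := G) hD hΛ (fun x hx => ⟨⟨x, hLG x hx⟩, rfl⟩) he hj hcase

end

end Pool.Agent.L0h17.TR
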