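import Pool.Agent.L0h17.TR.Pull

/-!
Linear algebra of derivations.
-/

set_option autoImplicit false
set_option linter.overlappingInstances false
set_option linter.unusedSectionVars false

open FF IntermediateField Pool.Agent.W619.PQ Pool.Agent.W619.PL Pool.Agent.W619.TW
  Pool.Agent.W603.LV Pool.Agent.Y172
open Pool.Agent.W602.GT (Divisorial RegAt IsPluri DerReg exists_der)

namespace Pool.Agent.L0h17.TR

section

variable {k K : Type} [Field k] [CharZero k] [Field K] [Algebra k K]

/-- derivations with given values on an independent family -/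
theorem der_ind {ι : Type} {t : ι → K} (ht : AlgebraicIndependent k t) (c : ι → K) :
    ∃ D : Derivation k K K, ∀ i, D (t i) = c i := by
  classical
  obtain ⟨S, hS1, hS2⟩ := exists_isTranscendenceBasis_superset (s := Set.range t) ht.coe_range
  obtain ⟨D, hD⟩ := exists_der (Subtype.val : S → K) hS2
    (fun s => if h : ∃ i, t i = s then c h.choose else 0)
  refine ⟨D, fun i => ?_⟩
  have h1 : ∃ i', t i' = t i := ⟨i, rfl⟩
  have h2 := hD ⟨t i, hS1 ⟨i, rfl⟩⟩
  change D (t i) = _ at h2
  rw [h2, dif_pos h1]
  congr 1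
  exact ht.injective h1.choose_spec

/-- the field of constants -/
def ker (D : Derivation k K K) : IntermediateField k K where
  carrier := {f | D f = 0}
  mul_mem' := fun {a b} ha hb => by
    change D (a * b) = 0
    rw [D.leibniz, show D a = 0 from ha, show D b = 0 from hb, smul_zero, smul_zero, add_zero]
  one_mem' := D.map_one_eq_zero
  add_mem' := fun {a b} ha hb => by
    change D (a + b) = 0
    rw [map_add, show D a = 0 from ha, show D b = 0 from hb, add_zero]
  zero_mem' := map_zero D
  algebraMap_mem' := fun r => D.map_algebraMap r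
  inv_mem' := fun x hx => by
    change D x⁻¹ = 0
    rw [D.leibniz_inv, show D x = 0 from hx, smul_zero]

theorem kill {D : Derivation k K K} {S : Set K} (hS : ∀ s ∈ S, D s = 0) {x : K}
    (hx : IsAlgebraic (IntermediateField.adjoin k S) x) : D x = 0 := by
  refine kills_alg (M := IntermediateField.adjoin k S) (fun z hz => ?_) hx
  have h1 : IntermediateField.adjoin k S ≤ ker D := IntermediateField.adjoin_le_iff.2 hS
  exact h1 hz

theorem dsum {N : ℕ} (c : Fin N → K) (D : Fin N → Derivation k K K) (x : K) :
    (∑ j, c j • D j : Derivation k K K) x = ∑ j, c j * D j x :=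
  Pool.Agent.Y190.BV.sum_smul_der c D x

/-- the differential of an algebraic function -/
theorem dw {N : ℕ} {z : Fin N → K} (hz : AlgebraicIndependent k z) {w : K}
    (hw : IsAlgebraic (IntermediateField.adjoin k (Set.range z)) w) :
    ∃ t : Fin N → K, ∀ H : Derivation k K K, H w = ∑ i, H (z i) * t i := by
  classical
  choose D hD using fun i : Fin N => der_ind hz (fun j => if j = i then 1 else 0)
  refine ⟨fun i => D i w, fun H => ?_⟩
  have h1 : (H - ∑ i, H (z i) • D i) w = 0 := by
    refine kill (S := Set.range z) ?_ hw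
    rintro _ ⟨j, rfl⟩
    rw [Derivation.sub_apply, dsum]
    simp only [hD, mul_ite, mul_one, mul_zero, Finset.sum_ite_eq, Finset.mem_univ, if_true,
      sub_self]
  rw [Derivation.sub_apply, dsum] at h1
  exact sub_eq_zero.1 h1

end

section

variable {k K : Type} [Field k] [CharZero k] [Field K] [Algebra k K] {j q c0 : ℕ}
  {y' : Fin j → K} {y'' : Fin q → K} {r : Fin c0 → K} {T : Matrix (Fin j) (Fin q) K}
  {X : Matrix (Fin c0) (Fin q) K}

theorem exists_TX (hz : AlgebraicIndependent k (Fin.append y' r : Fin (j + c0) → K))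
    (hy'' : ∀ l, IsAlgebraic
      (IntermediateField.adjoin k (Set.range (Fin.append y' r : Fin (j + c0) → K))) (y'' l)) :
    ∃ (T : Matrix (Fin j) (Fin q) K) (X : Matrix (Fin c0) (Fin q) K),
      ∀ (H : Derivation k K K) l,
        H (y'' l) = ∑ i, H (y' i) * T i l + ∑ i, H (r i) * X i l := by
  choose t ht using fun l => dw hz (hy'' l)
  refine ⟨Matrix.of fun i l => t l (Fin.castAdd c0 i), Matrix.of fun i l => t l (Fin.natAdd j i),
    fun H l => ?_⟩
  rw [ht l H, Fin.sum_univ_add]
  simp only [Fin.append_left, Fin.append_right, Matrix.of_apply]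

theorem exists_sel (hTX : ∀ (H : Derivation k K K) l,
    H (y'' l) = ∑ i, H (y' i) * T i l + ∑ i, H (r i) * X i l)
    (hy : AlgebraicIndependent k (Fin.append y' y'' : Fin (j + q) → K)) :
    ∃ s : Fin q → Fin c0, (X.submatrix s id).det ≠ 0 := by
  classical
  apply Pool.Agent.L0h17.KU.exists_minor
  rw [Fintype.linearIndependent_iff]
  intro v hv l
  obtain ⟨Y, hY⟩ := der_ind hy (Fin.append (fun _ => 0) (fun l' => if l' = l then 1 else 0))
  have h1 : ∀ i, Y (y' i) = 0 := fun i => by
    have := hY (Fin.castAdd q i)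
    rwa [Fin.append_left, Fin.append_left] at this
  have h2 : ∀ l', Y (y'' l') = if l' = l then 1 else 0 := fun l' => by
    have := hY (Fin.natAdd j l')
    rwa [Fin.append_right, Fin.append_right] at this
  have h3 : ∀ l', (if l' = l then (1 : K) else 0) = ∑ i, Y (r i) * X i l' := fun l' => by
    rw [← h2, hTX Y l']
    simp [h1]
  have h4 : ∀ i, ∑ l', v l' * X i l' = 0 := fun i => by
    have := congrFun hv i
    simpa [Finset.sum_apply] using this
  have h5 : v l = ∑ l', v l' * (if l' = l then (1 : K) else 0) := by simp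
  rw [h5]
  simp only [h3, Finset.mul_sum]
  rw [Finset.sum_comm]
  have h6 : ∀ i, ∑ l', v l' * (Y (r i) * X i l') = 0 := fun i => by
    have h7 : ∑ l', v l' * (Y (r i) * X i l') = Y (r i) * ∑ l', v l' * X i l' := by
      rw [Finset.mul_sum]
      exact Finset.sum_congr rfl fun l' _ => by ring
    rw [h7, h4, mul_zero]
  exact Finset.sum_eq_zero fun i _ => h6 i

theorem det_block (hTX : ∀ (H : Derivation k K K) l,
    H (y'' l) = ∑ i, H (y' i) * T i l + ∑ i, H (r i) * X i l) (s : Fin q → Fin c0)
    {D₁ : Fin j → Derivation k K K} (hD₁ : ∀ i a, D₁ i (r a) = 0)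
    {D₂ : Fin q → Derivation k K K} (hD₂ : ∀ l a, D₂ l (r a) = if a = s l then 1 else 0) :
    (Matrix.of fun a b => (Fin.append D₁ D₂ a : Derivation k K K)
      ((Fin.append y' y'' : Fin (j + q) → K) b)).det =
      (Matrix.of fun a b => D₁ a (y' b)).det * (X.submatrix s id).det := by
  classical
  set M : Matrix (Fin (j + q)) (Fin (j + q)) K :=
    Matrix.of fun a b => (Fin.append D₁ D₂ a : Derivation k K K)
      ((Fin.append y' y'' : Fin (j + q) → K) b) with hM
  set A : Matrix (Fin j) (Fin j) K := Matrix.of fun a b => D₁ a (y' b) with hA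
  set B : Matrix (Fin q) (Fin j) K := Matrix.of fun a b => D₂ a (y' b) with hB
  have h1 : M.submatrix finSumFinEquiv finSumFinEquiv =
      Matrix.fromBlocks A (A * T) B (B * T + X.submatrix s id) := by
    ext (i | i) (l | l)
    · rw [Matrix.fromBlocks_apply₁₁, Matrix.submatrix_apply]
      simp [hM, hA]
    · rw [Matrix.fromBlocks_apply₁₂, Matrix.submatrix_apply]
      simp only [hM, Matrix.of_apply, finSumFinEquiv_apply_left, finSumFinEquiv_apply_right,
        Fin.append_left, Fin.append_right, Matrix.mul_apply, hA]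
      rw [hTX]
      simp [hD₁]
    · rw [Matrix.fromBlocks_apply₂₁, Matrix.submatrix_apply]
      simp [hM, hB]
    · rw [Matrix.fromBlocks_apply₂₂, Matrix.submatrix_apply]
      simp only [hM, Matrix.of_apply, finSumFinEquiv_apply_right,
        Fin.append_right, Matrix.mul_apply, hB, Matrix.add_apply, Matrix.submatrix_apply, id]
      rw [hTX]
      simp [hD₂]
  have h2 : Matrix.fromBlocks A (A * T) B (B * T + X.submatrix s id) =
      Matrix.fromBlocks A 0 B (X.submatrix s id) *
        (Matrix.fromBlocks 1 T 0 1 : Matrix (Fin j ⊕ Fin q) (Fin j ⊕ Fin q) K) := by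
    rw [Matrix.fromBlocks_multiply]
    simp
  rw [← Matrix.det_submatrix_equiv_self finSumFinEquiv M, h1, h2, Matrix.det_mul,
    Matrix.det_fromBlocks_zero₁₂, Matrix.det_fromBlocks_zero₂₁, Matrix.det_one, Matrix.det_one,
    one_mul, mul_one]

end

end Pool.Agent.L0h17.TR
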