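import Pool.Agent.L0h17.KU.Prd

/-!
Splitting of a determinant of two groups of linear functionals.
-/

set_option autoImplicit false
set_option linter.overlappingInstances false
set_option linter.unusedSectionVars false

open FF

namespace Pool.Agent.L0h17.TR

open Pool.Agent.L0h17.KU (cramer_row exists_minor)

variable {k K V : Type} [Field k] [Field K] [Algebra k K] [AddCommGroup V] [Module K V]

/-- A determinant of two groups of functionals is the product of two determinants, for suitable
regular vectors. -/
theorem split (Q : Place k K) (𝒟 : V → Prop) {m n : ℕ}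
    (hsub : ∀ (D : V) (c : Fin m → K) (E : Fin m → V), 𝒟 D →
      (∀ k, Q.Reg (c k)) → (∀ k, 𝒟 (E k)) → 𝒟 (D - ∑ k, c k • E k))
    (x : Fin m → V →ₗ[K] K) (y : Fin n → V →ₗ[K] K)
    (D : Fin (m + n) → V) (hD : ∀ i, 𝒟 (D i))
    (hdet : (Matrix.of fun i j => (Fin.append x y j : V →ₗ[K] K) (D i) :
      Matrix (Fin (m + n)) (Fin (m + n)) K).det ≠ 0) :
    ∃ (D₁ : Fin m → V) (D₂ : Fin n → V) (ε : ℤˣ),
      (∀ i, 𝒟 (D₁ i)) ∧ (∀ i, 𝒟 (D₂ i)) ∧
      (Matrix.of fun i j => x j (D₁ i) : Matrix (Fin m) (Fin m) K).det *
        (Matrix.of fun i j => y j (D₂ i) : Matrix (Fin n) (Fin n) K).det =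
        ((ε : ℤ) : K) * (Matrix.of fun i j => (Fin.append x y j : V →ₗ[K] K) (D i) :
          Matrix (Fin (m + n)) (Fin (m + n)) K).det := by
  classical
  set M : Matrix (Fin (m + n)) (Fin (m + n)) K :=
    Matrix.of fun i j => (Fin.append x y j : V →ₗ[K] K) (D i) with hM
  set X : Matrix (Fin (m + n)) (Fin m) K := Matrix.of fun i j => x j (D i) with hX
  have hXM : X = M.submatrix id (Fin.castAdd n) := by
    ext i j
    simp [hX, hM, Fin.append_left]
  have hcol : LinearIndependent K X.transpose.row := by
    have h1 : LinearIndependent K M.transpose.row := by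
      rw [Matrix.linearIndependent_rows_iff_isUnit, Matrix.isUnit_iff_isUnit_det,
        Matrix.det_transpose]
      exact isUnit_iff_ne_zero.2 hdet
    have h2 := h1.comp (Fin.castAdd n) (Fin.castAdd_injective m n)
    rw [hXM]
    exact h2
  obtain ⟨s0, hs0⟩ := exists_minor X hcol
  obtain ⟨s, hsS, hmin⟩ := Finset.exists_min_image
    (Finset.univ.filter fun s : Fin m → Fin (m + n) => (X.submatrix s id).det ≠ 0)
    (fun s => Q.ord (X.submatrix s id).det) ⟨s0, by simpa using hs0⟩
  have hs : (X.submatrix s id).det ≠ 0 := by simpa using hsS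
  have hinj : Function.Injective s := by
    intro a b hab
    by_contra hne
    exact hs (Matrix.det_zero_of_row_eq hne (by
      funext j
      simp [Matrix.submatrix_apply, hab]))
  -- the coefficients
  let c : Fin (m + n) → Fin m → K := fun i k =>
    ((X.submatrix s id).updateRow k (X i)).det / (X.submatrix s id).det
  have hc : ∀ i k, Q.Reg (c i k) := by
    intro i k
    by_cases h0 : ((X.submatrix s id).updateRow k (X i)).det = 0
    · left
      simp only [c]
      rw [h0, zero_div]
    · right
      have h1 : (X.submatrix s id).updateRow k (X i) =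
          X.submatrix (Function.update s k i) id := by
        ext a b
        rw [Matrix.updateRow_apply, Matrix.submatrix_apply]
        by_cases hak : a = k
        · subst hak
          simp
        · simp [hak]
      have h2 := hmin (Function.update s k i) (by
        simp only [Finset.mem_filter, Finset.mem_univ, true_and]
        rw [← h1]
        exact h0)
      simp only [c]
      rw [Q.ord_div h0 hs]
      rw [← h1] at h2
      omega
  let D' : Fin (m + n) → V := fun i => D i - ∑ k, c i k • D (s k)
  have hD' : ∀ i, 𝒟 (D' i) := fun i => hsub _ _ _ (hD i) (hc i) (fun k => hD _)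
  have hD'a : ∀ i (z : V →ₗ[K] K), z (D' i) = z (D i) - ∑ k, c i k * z (D (s k)) := by
    intro i z
    simp only [D', map_sub, map_sum, map_smul, smul_eq_mul]
  have hD'x : ∀ i j, x j (D' i) = 0 := by
    intro i j
    rw [hD'a, sub_eq_zero]
    exact (cramer_row (X.submatrix s id) hs (X i) j).symm
  -- the equivalence
  have hcard : Fintype.card (Fin n) = Fintype.card ((Set.range s)ᶜ : Set (Fin (m + n))) := by
    rw [Fintype.card_compl_set, Set.card_range_of_injective hinj]
    simp
  let e2 : Fin n ≃ ((Set.range s)ᶜ : Set (Fin (m + n))) := Fintype.equivOfCardEq hcard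
  let e : Fin m ⊕ Fin n ≃ Fin (m + n) :=
    ((Equiv.ofInjective s hinj).sumCongr e2).trans (Equiv.Set.sumCompl (Set.range s))
  have hel : ∀ i, e (Sum.inl i) = s i := by
    intro i
    simp [e]
  set A : Matrix (Fin m) (Fin m) K := X.submatrix s id with hA
  let Bs : Matrix (Fin m) (Fin n) K := Matrix.of fun i j => y j (D (s i))
  let Xr : Matrix (Fin n) (Fin m) K := Matrix.of fun i j => x j (D (e (Sum.inr i)))
  let Br : Matrix (Fin n) (Fin n) K := Matrix.of fun i j => y j (D (e (Sum.inr i)))
  let B' : Matrix (Fin n) (Fin n) K := Matrix.of fun i j => y j (D' (e (Sum.inr i)))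
  let C : Matrix (Fin n) (Fin m) K := Matrix.of fun i k => c (e (Sum.inr i)) k
  have hN : M.submatrix e finSumFinEquiv = Matrix.fromBlocks A Bs Xr Br := by
    ext (i | i) (j | j)
    · rw [Matrix.fromBlocks_apply₁₁, Matrix.submatrix_apply, hel]
      simp [hM, hA, hX]
    · rw [Matrix.fromBlocks_apply₁₂, Matrix.submatrix_apply, hel]
      simp [hM, Bs]
    · rw [Matrix.fromBlocks_apply₂₁, Matrix.submatrix_apply]
      simp [hM, Xr]
    · rw [Matrix.fromBlocks_apply₂₂, Matrix.submatrix_apply]
      simp [hM, Br]
  have hLN : Matrix.fromBlocks 1 0 (-C) 1 * Matrix.fromBlocks A Bs Xr Br =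
      Matrix.fromBlocks A Bs 0 B' := by
    rw [Matrix.fromBlocks_multiply]
    congr 1
    · simp
    · simp
    · ext i j
      simp only [Matrix.add_apply, Matrix.neg_mul, Matrix.neg_apply, Matrix.one_mul,
        Matrix.zero_apply, Matrix.mul_apply]
      have h1 := hD'x (e (Sum.inr i)) j
      rw [hD'a] at h1
      have h2 : ∑ k, C i k * A k j = ∑ k, c (e (Sum.inr i)) k * x j (D (s k)) := rfl
      rw [h2]
      have h3 : Xr i j = x j (D (e (Sum.inr i))) := rfl
      rw [h3]
      linear_combination h1
    · ext i j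
      simp only [Matrix.add_apply, Matrix.neg_mul, Matrix.neg_apply, Matrix.one_mul,
        Matrix.mul_apply]
      have h1 := hD'a (e (Sum.inr i)) (y j)
      have h2 : ∑ k, C i k * Bs k j = ∑ k, c (e (Sum.inr i)) k * y j (D (s k)) := rfl
      rw [h2]
      have h3 : Br i j = y j (D (e (Sum.inr i))) := rfl
      have h4 : B' i j = y j (D' (e (Sum.inr i))) := rfl
      rw [h3, h4, h1]
      ring
  have hdN : (M.submatrix e finSumFinEquiv).det = A.det * B'.det := by
    rw [hN]
    have h1 := congrArg Matrix.det hLN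
    rw [Matrix.det_mul, Matrix.det_fromBlocks_zero₁₂, Matrix.det_fromBlocks_zero₂₁,
      Matrix.det_one, Matrix.det_one, one_mul, one_mul] at h1
    exact h1
  have hsign : (M.submatrix e finSumFinEquiv).det =
      ((Equiv.Perm.sign (finSumFinEquiv.symm.trans e) : ℤ) : K) * M.det := by
    rw [← Matrix.det_permute]
    rw [← Matrix.det_submatrix_equiv_self finSumFinEquiv
      (M.submatrix (finSumFinEquiv.symm.trans e) id)]
    congr 1
    ext i j
    simp
  refine ⟨fun i => D (s i), fun i => D' (e (Sum.inr i)),
    Equiv.Perm.sign (finSumFinEquiv.symm.trans e), fun i => hD _, fun i => hD' _, ?_⟩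
  have h5 : (Matrix.of fun i j => x j (D (s i)) : Matrix (Fin m) (Fin m) K) = A := rfl
  have h6 : (Matrix.of fun i j => y j (D' (e (Sum.inr i))) : Matrix (Fin n) (Fin n) K) = B' :=
    rfl
  rw [h5, h6, ← hsign, hdN]

end Pool.Agent.L0h17.TR
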