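import Pool.Agent.L0h17.TR.Frame
import Pool.Agent.L0h17.TR.Split

/-!
Pull-backs of regular forms.
-/

set_option autoImplicit false
set_option linter.overlappingInstances false
set_option linter.unusedSectionVars false

open FF IntermediateField Pool.Agent.W619.PQ Pool.Agent.W619.PL Pool.Agent.W619.TW
  Pool.Agent.W603.LV Pool.Agent.Y172
open Pool.Agent.W602.GT (Divisorial RegAt IsPluri DerReg)

namespace Pool.Agent.L0h17.TR

section

variable {R K : Type} [Field R] [Field K] [Algebra ℂ R] [Algebra ℂ K] [Algebra R K]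
  [IsScalarTower ℂ R K] [Algebra.EssFiniteType ℂ R] {a n : ℕ}

/-- pull-backs of regular forms, evaluated on vector fields which are regular on the functions of the
base -/
theorem pull_reg (ha : Algebra.trdeg ℂ R = a) (hn : Algebra.trdeg ℂ K = n) {y : Fin a → R}
    (hy : IsTranscendenceBasis ℂ y) {E : Fin a → Derivation ℂ R R}
    (hE : ∀ i j, E i (y j) = if i = j then 1 else 0) {w : ℕ}
    {α : (Fin a → Derivation ℂ R R) → R} (hα : IsPluri w α)
    (hreg : ∀ P : Place ℂ R, Divisorial a P → RegAt P α)
    {Q : Place ℂ K} (hQ : Divisorial n Q) {D : Fin a → Derivation ℂ K K}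
    (hD : ∀ i (f : R), Q.Reg (algebraMap R K f) → Q.Reg (D i (algebraMap R K f))) :
    Ge Q 0 ((Matrix.of fun i j => D i (algebraMap R K (y j))).det ^ w * algebraMap R K (α E)) := by
  classical
  by_cases htriv : ∃ f : R, Q.ord (algebraMap R K f) ≠ 0
  · obtain ⟨e, P, hP⟩ := exists_over (K := R) Q htriv
    have hPd : Divisorial a P := Pool.Agent.Y71.NT.t_abh R K a n ha hn Q P e hP hQ
    obtain ⟨yP, EP, i0, hl⟩ := exists_loc ha hPd
    have h1 := Pool.Agent.W73.PG.PULL.form_eq (L := K) y yP hy hl.bas E EP hE hl.dual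
      (m := w) α hα D
    rw [h1]
    have h2 : P.Reg (α EP) := hreg P hPd EP hl.pres
    have h9 : Ge Q 0 (Matrix.of fun a c => D a (algebraMap R K (yP c)) :
        Matrix (Fin a) (Fin a) K).det :=
      Pool.Agent.W619.PQ.ge_det Q _ fun a b => hD a _ (hP.reg.2 (hl.reg b))
    have h10 := h9.pow w
    rw [mul_zero] at h10
    have h3 : Ge Q 0 (algebraMap R K (α EP)) := hP.reg.2 h2
    have h4 := h10.mul h3
    rwa [zero_add] at h4
  · push Not at htriv
    have h0 : ∀ f : R, Q.Reg (algebraMap R K f) := fun f => Or.inr (htriv f).ge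
    have h9 : Ge Q 0 (Matrix.of fun i j => D i (algebraMap R K (y j)) :
        Matrix (Fin a) (Fin a) K).det :=
      Pool.Agent.W619.PQ.ge_det Q _ fun a b => hD a _ (h0 _)
    have h10 := h9.pow w
    rw [mul_zero] at h10
    have h3 : Ge Q 0 (algebraMap R K (α E)) := h0 _
    have h4 := h10.mul h3
    rwa [zero_add] at h4

end

section

variable {k K : Type} [Field k] [Field K] [Algebra k K]

/-- the differential of a function, as a functional on vector fields -/
def ev (k : Type) {K : Type} [Field k] [Field K] [Algebra k K] (z : K) :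
    Derivation k K K →ₗ[K] K where
  toFun := fun D => D z
  map_add' := fun _ _ => rfl
  map_smul' := fun _ _ => rfl

theorem ev_apply (z : K) (D : Derivation k K K) : ev k z D = D z := rfl

end

section

variable {k L K : Type} [Field k] [CharZero k] [Field L] [Field K] [Algebra k L] [Algebra k K]
  [Algebra L K] [IsScalarTower k L K] {n : ℕ}

/-- pull-back of a differential form of degree one -/
noncomputable def pb1 (z : Fin n → L) (E : Fin n → Derivation k L L)
    (β : Derivation k L L →ₗ[L] L) : Derivation k K K →ₗ[K] K :=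
  ∑ i, algebraMap L K (β (E i)) • ev k (algebraMap L K (z i))

theorem pb1_apply (z : Fin n → L) (E : Fin n → Derivation k L L)
    (β : Derivation k L L →ₗ[L] L) (G : Derivation k K K) :
    pb1 z E β G = ∑ i, algebraMap L K (β (E i)) * G (algebraMap L K (z i)) := by
  unfold pb1
  rw [LinearMap.sum_apply]
  rfl

theorem pb1_eq {z z' : Fin n → L} {E E' : Fin n → Derivation k L L}
    (hz : IsTranscendenceBasis k z) (hE : ∀ i j, E i (z j) = if i = j then 1 else 0)
    (hz' : IsTranscendenceBasis k z') (hE' : ∀ i j, E' i (z' j) = if i = j then 1 else 0)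
    (β : Derivation k L L →ₗ[L] L) (G : Derivation k K K) :
    pb1 z E β G = pb1 z' E' β G := by
  rw [pb1_apply, pb1_apply]
  have h1 : ∀ c, β (E' c) = ∑ i, E' c (z i) * β (E i) := by
    intro c
    conv_lhs => rw [← Pool.Agent.W73.PG.PULL.expand z hz E hE (E' c)]
    rw [map_sum]
    exact Finset.sum_congr rfl fun i _ => by rw [map_smul, smul_eq_mul]
  have h2 : ∀ i, G (algebraMap L K (z i)) = ∑ c, G (algebraMap L K (z' c)) *
      algebraMap L K (E' c (z i)) := fun i =>
    Pool.Agent.W73.PG.PULL.chain z' hz' E' hE' G (z i)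
  simp only [h1, h2, map_sum, map_mul, Finset.sum_mul, Finset.mul_sum]
  rw [Finset.sum_comm]
  exact Finset.sum_congr rfl fun i _ => Finset.sum_congr rfl fun c _ => by ring

theorem pb1_lift {z : Fin n → L} {E : Fin n → Derivation k L L}
    (hE : ∀ i j, E i (z j) = if i = j then 1 else 0)
    (β : Derivation k L L →ₗ[L] L) {G : Derivation k K K} {i : Fin n}
    (hG : ∀ f : L, G (algebraMap L K f) = algebraMap L K (E i f)) :
    pb1 z E β G = algebraMap L K (β (E i)) := by
  rw [pb1_apply, Finset.sum_eq_single i]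
  · rw [hG, hE, if_pos rfl, map_one, mul_one]
  · intro j _ hj
    rw [hG, hE, if_neg (Ne.symm hj), map_zero, mul_zero]
  · intro h
    exact absurd (Finset.mem_univ i) h

/-- pull-backs of regular forms of degree one are regular -/
theorem pb1_reg [FiniteDimensional L K] [Algebra.EssFiniteType k L] (hn : Algebra.trdeg k L = n)
    {z : Fin n → L} {E : Fin n → Derivation k L L}
    (hz : IsTranscendenceBasis k z) (hE : ∀ i j, E i (z j) = if i = j then 1 else 0)
    {β : Derivation k L L →ₗ[L] L}
    (hβ : ∀ P : Place k L, Divisorial n P → ∀ D, DerReg P D → P.Reg (β D))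
    {Q : Place k K} (hQ : Divisorial n Q) {G : Derivation k K K} (hG : DerReg Q G) :
    Q.Reg (pb1 z E β G) := by
  classical
  have halg : Algebra.IsAlgebraic L K := inferInstance
  obtain ⟨P, e, hP⟩ := Pool.Agent.Y172.exists_below (K := L) Q
  have hPd : Divisorial n P := Pool.Agent.W619.Y.pDIVI.{0, 0} k L K n P Q e hP hQ
  obtain ⟨zP, EP, i0, hl⟩ := exists_loc hn hPd
  rw [pb1_eq hz hE hl.bas hl.dual, pb1_apply]
  have h1 : ∀ S : Finset (Fin n), Q.Reg (∑ i ∈ S, algebraMap L K (β (EP i)) *
      G (algebraMap L K (zP i))) := by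
    intro S
    induction S using Finset.induction_on with
    | empty => simpa using Q.reg_zero
    | insert k S hk ih =>
      rw [Finset.sum_insert hk]
      exact Q.reg_add (Q.reg_mul (hP.reg.2 (hβ P hPd _ (hl.pres k)))
        (hG _ (hP.reg.2 (hl.reg k)))) ih
  exact h1 _

end

end Pool.Agent.L0h17.TR
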