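import Pool.Agent.L0h17.TR.Core

/-!
Selection of coordinates and of differential forms.
-/

set_option autoImplicit false
set_option linter.overlappingInstances false
set_option linter.unusedSectionVars false

open FF IntermediateField Pool.Agent.W619.PQ Pool.Agent.W619.PL Pool.Agent.W619.TW
  Pool.Agent.W603.LV Pool.Agent.Y172 Cardinal
open Pool.Agent.W602.GT (Divisorial RegAt IsPluri DerReg exists_der)

namespace Pool.Agent.L0h17.TR

section

variable {k R Λ K : Type} [Field k] [Field R] [Field Λ] [Field K] [Algebra k R] [Algebra k Λ]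
  [Algebra k K] [Algebra R K] [Algebra Λ K] [IsScalarTower k R K] [IsScalarTower k Λ K]

theorem alg_push' {ι : Type} {g : ι → R} {x : R}
    (h1 : IsAlgebraic (IntermediateField.adjoin k (Set.range g)) x) :
    IsAlgebraic (IntermediateField.adjoin Λ (Set.range fun l => algebraMap R K (g l)))
      (algebraMap R K x) := by
  have h2 : ∀ z : IntermediateField.adjoin k (Set.range g), algebraMap R K (z : R) ∈
      IntermediateField.adjoin Λ (Set.range fun l => algebraMap R K (g l)) := by
    intro z
    have h3 : algebraMap R K (z : R) ∈ (IntermediateField.adjoin k (Set.range g)).map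
        (IsScalarTower.toAlgHom k R K) := ⟨z, z.2, rfl⟩
    rw [IntermediateField.adjoin_map] at h3
    have h4 : IntermediateField.adjoin k ((IsScalarTower.toAlgHom k R K) '' Set.range g) ≤
        (IntermediateField.adjoin Λ (Set.range fun l => algebraMap R K (g l))).restrictScalars
          k := by
      rw [IntermediateField.adjoin_le_iff]
      rintro _ ⟨_, ⟨l, rfl⟩, rfl⟩
      exact IntermediateField.subset_adjoin Λ _ ⟨l, rfl⟩
    exact h4 h3
  let f : IntermediateField.adjoin k (Set.range g) →+*
      IntermediateField.adjoin Λ (Set.range fun l => algebraMap R K (g l)) :=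
    ((algebraMap R K).comp (algebraMap (IntermediateField.adjoin k (Set.range g)) R)).codRestrict
      _ h2
  exact h1.ringHom_of_comp_eq f (algebraMap R K) f.injective rfl

end

section

variable {k K : Type} [Field k] [Field K] [Algebra k K]

/-- extension to a transcendence basis -/
theorem ext_basis {a j : ℕ} (ha : Algebra.trdeg k K = a) {y' : Fin j → K}
    (hy : AlgebraicIndependent k y') :
    ∃ (q : ℕ) (_ : a = j + q) (y'' : Fin q → K),
      IsTranscendenceBasis k (Fin.append y' y'' : Fin (j + q) → K) := by
  obtain ⟨t, ht1, ht2⟩ := exists_isTranscendenceBasis_superset (s := Set.range y') hy.coe_range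
  have hcard : #t = a := by rw [ht2.cardinalMk_eq_trdeg, ha]
  have htfin : t.Finite := by
    rw [← Cardinal.lt_aleph0_iff_set_finite, hcard]
    exact Cardinal.natCast_lt_aleph0
  have := htfin.fintype
  have hcard' : Fintype.card t = a := by
    rw [Cardinal.mk_fintype] at hcard
    exact_mod_cast hcard
  have hr : (Set.range y').ncard = j := by
    rw [← Nat.card_coe_set_eq, Nat.card_congr (Equiv.ofInjective y' hy.injective).symm,
      Nat.card_eq_fintype_card, Fintype.card_fin]
  have htn : t.ncard = a := by
    rw [← Nat.card_coe_set_eq, Nat.card_eq_fintype_card, hcard']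
  have h1 : (t \ Set.range y').ncard = a - j := by
    rw [Set.ncard_sdiff ht1 (Set.finite_range y'), htn, hr]
  have hle : j ≤ a := by
    rw [← hr, ← htn]
    exact Set.ncard_le_ncard ht1 htfin
  have hfin : (t \ Set.range y').Finite := htfin.sdiff
  have := hfin.fintype
  have h2 : Fintype.card ↥(t \ Set.range y') = a - j := by
    rw [← h1, ← Nat.card_coe_set_eq, Nat.card_eq_fintype_card]
  obtain ⟨e⟩ : Nonempty (Fin (a - j) ≃ ↥(t \ Set.range y')) :=
    ⟨(Fintype.equivFinOfCardEq h2).symm⟩
  refine ⟨a - j, by omega, fun i => (e i : K), ?_⟩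
  have hmem : ∀ i : Fin (j + (a - j)),
      (Fin.append y' (fun i => (e i : K)) : Fin (j + (a - j)) → K) i ∈ t := by
    intro i
    refine Fin.addCases (fun b => ?_) (fun b => ?_) i
    · rw [Fin.append_left]
      exact ht1 ⟨b, rfl⟩
    · rw [Fin.append_right]
      exact (e b).2.1
  have hinj : Function.Injective
      (fun i => (⟨_, hmem i⟩ : t) : Fin (j + (a - j)) → t) := by
    intro i i' hii
    have hii' := congrArg Subtype.val hii
    dsimp only at hii'
    clear hii
    revert hii'
    refine Fin.addCases (fun b => ?_) (fun b => ?_) i <;>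
      refine Fin.addCases (fun b' => ?_) (fun b' => ?_) i' <;> intro h
    · rw [Fin.append_left, Fin.append_left] at h
      rw [hy.injective h]
    · rw [Fin.append_left, Fin.append_right] at h
      exact absurd ⟨b, h⟩ (e b').2.2
    · rw [Fin.append_left, Fin.append_right] at h
      exact absurd ⟨b', h.symm⟩ (e b).2.2
    · rw [Fin.append_right, Fin.append_right] at h
      rw [e.injective (Subtype.ext h)]
  have hbij : Function.Bijective
      (fun i => (⟨_, hmem i⟩ : t) : Fin (j + (a - j)) → t) := by
    rw [Fintype.bijective_iff_injective_and_card]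
    refine ⟨hinj, ?_⟩
    rw [Fintype.card_fin, hcard']
    omega
  have h9 := ht2.comp_equiv (Equiv.ofBijective _ hbij)
  have h10 : ((Subtype.val : t → K) ∘ (Equiv.ofBijective _ hbij)) =
      (Fin.append y' (fun i => (e i : K)) : Fin (j + (a - j)) → K) := by
    funext i
    rfl
  rw [h10] at h9
  exact h9

/-- a transcendence basis in a set of generators -/
theorem basis_in (S : Set K) {j : ℕ}
    (h : Algebra.trdeg k (IntermediateField.adjoin k S) = j) :
    ∃ y : Fin j → K, (∀ i, y i ∈ S) ∧ AlgebraicIndependent k y ∧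
      ∀ x ∈ IntermediateField.adjoin k S,
        IsAlgebraic (IntermediateField.adjoin k (Set.range y)) x := by
  classical
  let F0 := IntermediateField.adjoin k S
  let s : Set F0 := {x | (x : K) ∈ S}
  have hs : IntermediateField.adjoin k s = ⊤ := by
    rw [eq_top_iff]
    have h1 : (IntermediateField.adjoin k s).map F0.val = F0 := by
      rw [IntermediateField.adjoin_map]
      congr 1
      ext x
      constructor
      · rintro ⟨y, hy, rfl⟩
        exact hy
      · intro hx
        exact ⟨⟨x, IntermediateField.subset_adjoin k S hx⟩, hx, rfl⟩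
    intro x _
    have h2 : (x : K) ∈ (IntermediateField.adjoin k s).map F0.val := by
      rw [h1]
      exact x.2
    obtain ⟨y, hy, hyx⟩ := h2
    have h4 : y = x := Subtype.ext hyx
    exact h4 ▸ hy
  have h6 : Algebra.IsAlgebraic (Algebra.adjoin k s) F0 := by
    rw [← IntermediateField.isAlgebraic_adjoin_iff_top, hs]
    exact ⟨fun x => isAlgebraic_algebraMap (⟨x, trivial⟩ : (⊤ : IntermediateField k F0))⟩
  obtain ⟨u, hu2, hu3⟩ := exists_isTranscendenceBasis_subset (R := k) s
  have h7 : #u = j := by rw [hu3.cardinalMk_eq_trdeg, h]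
  have hufin : u.Finite := by
    rw [← Cardinal.lt_aleph0_iff_set_finite, h7]
    exact Cardinal.natCast_lt_aleph0
  have := hufin.fintype
  have hcard' : Fintype.card u = j := by
    rw [Cardinal.mk_fintype] at h7
    exact_mod_cast h7
  let e : Fin j ≃ u := (Fintype.equivFinOfCardEq hcard').symm
  have hb : IsTranscendenceBasis k (fun i => ((e i : u) : F0)) := hu3.comp_equiv e
  refine ⟨fun i => ((e i : F0) : K), fun i => hu2 (e i).2, ?_, fun x hx => ?_⟩
  · exact hb.1.map' (f := F0.val) F0.val.injective
  · have h8 : IsAlgebraic (IntermediateField.adjoin k (Set.range fun i => ((e i : u) : F0)))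
        (⟨x, hx⟩ : F0) := hb.isAlgebraic_field.isAlgebraic _
    exact alg_push' (k := k) (R := F0) (Λ := k) (K := K) h8

end

section

variable {k Λ K : Type} [Field k] [Field Λ] [Field K] [Algebra k Λ] [Algebra k K] [Algebra Λ K]
  [IsScalarTower k Λ K] {c0 j : ℕ}

theorem alg_yr {r : Fin c0 → Λ} (hr : IsTranscendenceBasis k r) {y : Fin j → K} {x : K}
    (hx : IsAlgebraic (IntermediateField.adjoin Λ (Set.range y)) x) :
    IsAlgebraic (IntermediateField.adjoin k (Set.range
      (Fin.append y (fun i => algebraMap Λ K (r i)) : Fin (j + c0) → K))) x := by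
  classical
  set A : IntermediateField k K := IntermediateField.adjoin k (Set.range
      (Fin.append y (fun i => algebraMap Λ K (r i)) : Fin (j + c0) → K)) with hA
  let C : IntermediateField A K := algebraicClosure A K
  have hAC : ∀ z ∈ A, z ∈ C := fun z hz =>
    mem_algebraicClosure_iff.2 (isAlgebraic_algebraMap (⟨z, hz⟩ : A))
  have hy : ∀ i, y i ∈ A := fun i => IntermediateField.subset_adjoin _ _
    ⟨Fin.castAdd c0 i, by rw [Fin.append_left]⟩
  have hrA : ∀ i, algebraMap Λ K (r i) ∈ A := fun i => IntermediateField.subset_adjoin _ _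
    ⟨Fin.natAdd j i, by rw [Fin.append_right]⟩
  have hΛ : ∀ z : Λ, algebraMap Λ K z ∈ C := by
    intro z
    have h1 : IsAlgebraic (IntermediateField.adjoin k (Set.range r)) z :=
      hr.isAlgebraic_field.isAlgebraic _
    have h2 := alg_push' (k := k) (R := Λ) (Λ := k) (K := K) h1
    have h3 : IntermediateField.adjoin k (Set.range fun l => algebraMap Λ K (r l)) ≤ A := by
      rw [IntermediateField.adjoin_le_iff]
      rintro _ ⟨l, rfl⟩
      exact hrA l
    exact mem_algebraicClosure_iff.2 (h2.ringHom_of_comp_eq
      (IntermediateField.inclusion h3).toRingHom (RingHom.id K)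
      (IntermediateField.inclusion h3).injective rfl)
  have hle : ∀ z : IntermediateField.adjoin Λ (Set.range y), (z : K) ∈ C := by
    intro z
    have h1 : (IntermediateField.adjoin Λ (Set.range y)).toSubfield ≤ C.toSubfield := by
      rw [IntermediateField.adjoin_toSubfield, Subfield.closure_le]
      rintro _ (⟨z, rfl⟩ | ⟨i, rfl⟩)
      · exact hΛ z
      · exact hAC _ (hy i)
    exact h1 z.2
  have h5 : IsAlgebraic C x := hx.ringHom_of_comp_eq
    ((algebraMap (IntermediateField.adjoin Λ (Set.range y)) K).codRestrict C hle) (RingHom.id K)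
    (RingHom.injective _) rfl
  have h6 : Algebra.IsAlgebraic A C := algebraicClosure.isAlgebraic A K
  exact h5.restrictScalars A

end

section

variable {K V : Type} [Field K] [AddCommGroup V] [Module K V] {n j : ℕ}

/-- selection of functionals -/
theorem sel_dual [FiniteDimensional K V] (hV : Module.finrank K V = n)
    {u : Fin j → V →ₗ[K] K} (hu : LinearIndependent K u) {v : Fin n → V →ₗ[K] K}
    (hv : LinearIndependent K v) :
    ∃ (d : ℕ) (_ : n = j + d) (τ : Fin d → Fin n) (G : Fin (j + d) → V),
      (Matrix.of fun a b => (Fin.append u (fun i => v (τ i)) b : V →ₗ[K] K) (G a)).det ≠ 0 := by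
  classical
  have hdual : Module.finrank K (V →ₗ[K] K) = n := by
    rw [← hV]
    exact Subspace.dual_finrank_eq
  have hspan : Submodule.span K (Set.range v) = ⊤ :=
    hv.span_eq_top_of_card_eq_finrank' (by rw [Fintype.card_fin, hdual])
  obtain ⟨b, hb1, hb2, hb3, hb4⟩ := exists_linearIndepOn_extension (K := K) (v := id)
    (s := Set.range u) (t := Set.range u ∪ Set.range v) hu.linearIndepOn_id
    Set.subset_union_left
  have hbspan : Submodule.span K b = ⊤ := by
    rw [eq_top_iff, ← hspan, Submodule.span_le]
    rintro _ ⟨i, rfl⟩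
    have h1 := hb3 ⟨v i, Or.inr ⟨i, rfl⟩, rfl⟩
    simpa using h1
  have hbfin : b.Finite :=
    ((Set.finite_range u).union (Set.finite_range v)).subset hb1
  have := hbfin.fintype
  have hbli : LinearIndependent K (Subtype.val : b → V →ₗ[K] K) := hb4
  have hbcard : Fintype.card b = n := by
    rw [← hdual]
    let B : Module.Basis b K (V →ₗ[K] K) := Module.Basis.mk hbli (by
      rw [Subtype.range_coe_subtype, Set.ofPred_mem_eq, hbspan])
    exact (Module.finrank_eq_card_basis B).symm
  have hr : (Set.range u).ncard = j := by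
    rw [← Nat.card_coe_set_eq, Nat.card_congr (Equiv.ofInjective u hu.injective).symm,
      Nat.card_eq_fintype_card, Fintype.card_fin]
  have htn : b.ncard = n := by
    rw [← Nat.card_coe_set_eq, Nat.card_eq_fintype_card, hbcard]
  have h1 : (b \ Set.range u).ncard = n - j := by
    rw [Set.ncard_sdiff hb2 (Set.finite_range u), htn, hr]
  have hle : j ≤ n := by
    rw [← hr, ← htn]
    exact Set.ncard_le_ncard hb2 hbfin
  have hfin : (b \ Set.range u).Finite := hbfin.sdiff
  have := hfin.fintype
  have h2 : Fintype.card ↥(b \ Set.range u) = n - j := by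
    rw [← h1, ← Nat.card_coe_set_eq, Nat.card_eq_fintype_card]
  obtain ⟨e⟩ : Nonempty (Fin (n - j) ≃ ↥(b \ Set.range u)) :=
    ⟨(Fintype.equivFinOfCardEq h2).symm⟩
  have hτ : ∀ i : Fin (n - j), ∃ l, v l = (e i : V →ₗ[K] K) := by
    intro i
    rcases hb1 (e i).2.1 with h3 | h3
    · exact absurd h3 (e i).2.2
    · exact h3
  choose τ hτ using hτ
  have hn : n = j + (n - j) := by omega
  have hmem : ∀ i : Fin (j + (n - j)),
      (Fin.append u (fun i => v (τ i)) : Fin (j + (n - j)) → V →ₗ[K] K) i ∈ b := by
    intro i
    refine Fin.addCases (fun c => ?_) (fun c => ?_) i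
    · rw [Fin.append_left]
      exact hb2 ⟨c, rfl⟩
    · rw [Fin.append_right, hτ]
      exact (e c).2.1
  have hinj : Function.Injective
      (fun i => (⟨_, hmem i⟩ : b) : Fin (j + (n - j)) → b) := by
    intro i i' hii
    have hii' := congrArg Subtype.val hii
    dsimp only at hii'
    clear hii
    revert hii'
    refine Fin.addCases (fun c => ?_) (fun c => ?_) i <;>
      refine Fin.addCases (fun c' => ?_) (fun c' => ?_) i' <;> intro h
    · rw [Fin.append_left, Fin.append_left] at h
      rw [hu.injective h]
    · rw [Fin.append_left, Fin.append_right, hτ] at h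
      exact absurd ⟨c, h⟩ (e c').2.2
    · rw [Fin.append_left, Fin.append_right, hτ] at h
      exact absurd ⟨c', h.symm⟩ (e c).2.2
    · rw [Fin.append_right, Fin.append_right, hτ, hτ] at h
      rw [e.injective (Subtype.ext h)]
  have hli : LinearIndependent K
      (Fin.append u (fun i => v (τ i)) : Fin (j + (n - j)) → V →ₗ[K] K) :=
    hbli.comp _ hinj
  let G : Module.Basis (Fin (j + (n - j))) K V :=
    Module.finBasisOfFinrankEq K V (by rw [hV]; exact hn)
  refine ⟨n - j, hn, τ, G, fun hdet => ?_⟩
  obtain ⟨c, hc0, hc⟩ := Matrix.exists_mulVec_eq_zero_iff.2 hdet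
  apply hc0
  rw [Fintype.linearIndependent_iff] at hli
  funext i
  refine hli c ?_ i
  refine G.ext fun a => ?_
  have h3 := congrFun hc a
  rw [Matrix.mulVec, dotProduct] at h3
  simp only [Matrix.of_apply, Pi.zero_apply] at h3
  rw [LinearMap.sum_apply, LinearMap.zero_apply, ← h3]
  exact Finset.sum_congr rfl fun i _ => by
    rw [LinearMap.smul_apply, smul_eq_mul, mul_comm]

end

section

variable {k K : Type} [Field k] [CharZero k] [Field K] [Algebra k K] {n j : ℕ}

/-- the basis of the vector fields -/
noncomputable def dbas {z : Fin n → K} (hz : IsTranscendenceBasis k z)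
    {E : Fin n → Derivation k K K} (hE : ∀ i j, E i (z j) = if i = j then 1 else 0) :
    Module.Basis (Fin n) K (Derivation k K K) :=
  Module.Basis.mk (v := E) (by
    rw [Fintype.linearIndependent_iff]
    intro c hc i
    have h1 : (∑ i, c i • E i : Derivation k K K) (z i) = 0 := by rw [hc]; rfl
    rw [dsum] at h1
    simpa [hE] using h1) (by
    intro D _
    rw [← Pool.Agent.W73.PG.PULL.expand z hz E hE D]
    exact Submodule.sum_mem _ fun i _ => Submodule.smul_mem _ _ (Submodule.subset_span ⟨i, rfl⟩))

theorem dfin (hn : Algebra.trdeg k K = n) :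
    FiniteDimensional K (Derivation k K K) ∧ Module.finrank K (Derivation k K K) = n := by
  obtain ⟨z, E, hz, hE⟩ := exists_crd (k := k) hn
  have B := dbas hz hE
  have h1 : Module.Finite K (Derivation k K K) := Module.Finite.of_basis B
  refine ⟨h1, ?_⟩
  rw [Module.finrank_eq_card_basis B, Fintype.card_fin]

theorem ev_li {y : Fin j → K} (hy : AlgebraicIndependent k y) :
    LinearIndependent K (fun i => ev k (y i)) := by
  classical
  rw [Fintype.linearIndependent_iff]
  intro c hc i
  obtain ⟨D, hD⟩ := der_ind hy (fun l => if l = i then 1 else 0)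
  have h1 : (∑ i, c i • ev k (y i)) D = 0 := by rw [hc]; rfl
  rw [LinearMap.sum_apply] at h1
  have h2 : ∀ l, (c l • ev k (y l)) D = c l * (if l = i then 1 else 0) := fun l => by
    rw [LinearMap.smul_apply, ev_apply, hD, smul_eq_mul]
  simpa [h2] using h1

end

section

variable {k L K : Type} [Field k] [CharZero k] [Field L] [Field K] [Algebra k L] [Algebra k K]
  [Algebra L K] [IsScalarTower k L K] [FiniteDimensional L K] {n : ℕ}

theorem pb1_li (hn : Algebra.trdeg k L = n) {z : Fin n → L} {E : Fin n → Derivation k L L}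
    (hz : IsTranscendenceBasis k z) (hE : ∀ i j, E i (z j) = if i = j then 1 else 0)
    {β : Fin n → Derivation k L L →ₗ[L] L} (hβ : LinearIndependent L β) :
    LinearIndependent K (fun i => (pb1 z E (β i) : Derivation k K K →ₗ[K] K)) := by
  classical
  have hdet : (Matrix.of fun a b => β b (E a) : Matrix (Fin n) (Fin n) L).det ≠ 0 := by
    intro hdet
    obtain ⟨c, hc0, hc⟩ := Matrix.exists_mulVec_eq_zero_iff.2 hdet
    apply hc0
    rw [Fintype.linearIndependent_iff] at hβ
    funext i
    refine hβ c ?_ i
    refine (dbas hz hE).ext fun a => ?_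
    have h3 := congrFun hc a
    rw [Matrix.mulVec, dotProduct] at h3
    simp only [Matrix.of_apply, Pi.zero_apply] at h3
    rw [LinearMap.sum_apply, LinearMap.zero_apply, ← h3]
    refine Finset.sum_congr rfl fun i _ => ?_
    rw [LinearMap.smul_apply, smul_eq_mul, mul_comm, dbas, Module.Basis.mk_apply]
  rw [Fintype.linearIndependent_iff]
  intro c hc
  by_contra hne
  have hc0 : c ≠ 0 := fun h => hne (fun i => congrFun h i)
  have hdetK : (Matrix.of fun a b => algebraMap L K (β b (E a)) :
      Matrix (Fin n) (Fin n) K).det ≠ 0 := by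
    have h1 : (Matrix.of fun a b => algebraMap L K (β b (E a)) : Matrix (Fin n) (Fin n) K) =
        (algebraMap L K).mapMatrix (Matrix.of fun a b => β b (E a)) := by
      ext a b
      rfl
    rw [h1, ← RingHom.map_det]
    exact (map_ne_zero (algebraMap L K)).2 hdet
  refine hdetK (Matrix.exists_mulVec_eq_zero_iff.1 ⟨c, hc0, ?_⟩)
  funext a
  have h2 : (∑ i, c i • (pb1 z E (β i) : Derivation k K K →ₗ[K] K))
      (Pool.Agent.L0h17.DN.lft (K := K) hn (E a)) = 0 := by rw [hc]; rfl
  rw [LinearMap.sum_apply] at h2
  rw [Matrix.mulVec, dotProduct, Pi.zero_apply, ← h2]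
  refine Finset.sum_congr rfl fun i _ => ?_
  rw [LinearMap.smul_apply, pb1_lift hE (β i)
    (fun f => Pool.Agent.L0h17.DN.lft_apply hn (E a) f), smul_eq_mul, mul_comm]
  rfl

end

end Pool.Agent.L0h17.TR
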